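import Pool.Agent.Lib.MP_2b4858_co.Defs

-- part Pool.Agent.Lib.MP_2b4858_co.Alg
section

set_option autoImplicit false

namespace Pool.Agent.Lib.MP_2b4858_co

open scoped RealInnerProductSpace

def det3 (x y z : E3) : ℝ :=
  x 0 * (y 1 * z 2 - y 2 * z 1) - x 1 * (y 0 * z 2 - y 2 * z 0) + x 2 * (y 0 * z 1 - y 1 * z 0)

noncomputable def cr (x y : E3) : E3 :=
  !₂[x 1 * y 2 - x 2 * y 1, x 2 * y 0 - x 0 * y 2, x 0 * y 1 - x 1 * y 0]

theorem ip_eq (x y : E3) : ⟪x, y⟫ = x 0 * y 0 + x 1 * y 1 + x 2 * y 2 := by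
  simp [PiLp.inner_apply, Fin.sum_univ_three]; ring

theorem ext3 {x y : E3} (h0 : x 0 = y 0) (h1 : x 1 = y 1) (h2 : x 2 = y 2) : x = y := by
  ext i; fin_cases i <;> assumption

@[simp] theorem cr_0 (x y : E3) : cr x y 0 = x 1 * y 2 - x 2 * y 1 := rfl
@[simp] theorem cr_1 (x y : E3) : cr x y 1 = x 2 * y 0 - x 0 * y 2 := rfl
@[simp] theorem cr_2 (x y : E3) : cr x y 2 = x 0 * y 1 - x 1 * y 0 := rfl

theorem ip_cr (p q x : E3) : ⟪cr p q, x⟫ = det3 p q x := by
  simp [ip_eq, det3]; ring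

theorem det3_add3 (p q x y : E3) : det3 p q (x + y) = det3 p q x + det3 p q y := by
  simp [det3]; ring
theorem det3_sub3 (p q x y : E3) : det3 p q (x - y) = det3 p q x - det3 p q y := by
  simp [det3]; ring
theorem det3_smul3 (p q x : E3) (c : ℝ) : det3 p q (c • x) = c * det3 p q x := by
  simp [det3]; ring
theorem det3_neg3 (p q x : E3) : det3 p q (-x) = -det3 p q x := by
  simp [det3]; ring
@[simp] theorem det3_self13 (p q : E3) : det3 p q p = 0 := by simp [det3]; ring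
@[simp] theorem det3_self23 (p q : E3) : det3 p q q = 0 := by simp [det3]; ring
@[simp] theorem det3_self12 (p q : E3) : det3 p p q = 0 := by simp [det3]; ring
@[simp] theorem det3_zero3 (p q : E3) : det3 p q 0 = 0 := by simp [det3]
theorem det3_swap12 (p q x : E3) : det3 q p x = -det3 p q x := by simp [det3]; ring
theorem det3_swap23 (p q x : E3) : det3 p x q = -det3 p q x := by simp [det3]; ring
theorem det3_swap13 (p q x : E3) : det3 x q p = -det3 p q x := by simp [det3]; ring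
theorem det3_cyc (p q x : E3) : det3 q x p = det3 p q x := by simp [det3]; ring
theorem det3_cyc' (p q x : E3) : det3 x p q = det3 p q x := by simp [det3]; ring

theorem det3_comb (p q a b : E3) (s t : ℝ) :
    det3 p q (s • a + t • b) = s * det3 p q a + t * det3 p q b := by
  simp [det3]; ring

theorem cramer {p q r : E3} (h : det3 p q r ≠ 0) (x : E3) :
    x = (det3 x q r / det3 p q r) • p + (det3 p x r / det3 p q r) • q
      + (det3 p q x / det3 p q r) • r := by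
  refine ext3 ?_ ?_ ?_ <;>
  · simp only [PiLp.add_apply, PiLp.smul_apply, smul_eq_mul]
    field_simp
    simp only [det3]; ring

/-- Binet-Cauchy. -/
theorem det3_mul_det3 (a b c x y z : E3) :
    det3 a b c * det3 x y z =
      ⟪a, x⟫ * (⟪b, y⟫ * ⟪c, z⟫ - ⟪b, z⟫ * ⟪c, y⟫) - ⟪a, y⟫ * (⟪b, x⟫ * ⟪c, z⟫ - ⟪b, z⟫ * ⟪c, x⟫)
        + ⟪a, z⟫ * (⟪b, x⟫ * ⟪c, y⟫ - ⟪b, y⟫ * ⟪c, x⟫) := by
  simp only [ip_eq, det3]; ring

def Indep (p q : E3) : Prop := ∃ r, det3 p q r ≠ 0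

theorem Indep.symm {p q : E3} (h : Indep p q) : Indep q p := by
  obtain ⟨r, hr⟩ := h
  exact ⟨r, by rw [det3_swap12]; simpa using hr⟩

theorem Indep.plane {p q x : E3} (h : Indep p q) (hx : det3 p q x = 0) :
    ∃ s t : ℝ, x = s • p + t • q := by
  obtain ⟨r, hr⟩ := h
  refine ⟨det3 x q r / det3 p q r, det3 p x r / det3 p q r, ?_⟩
  have := cramer hr x
  rw [hx, zero_div, zero_smul, add_zero] at this
  exact this

theorem Indep.coeff {p q : E3} (h : Indep p q) {s t s' t' : ℝ}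
    (e : s • p + t • q = s' • p + t' • q) : s = s' ∧ t = t' := by
  obtain ⟨r, hr⟩ := h
  have h1 := congrArg (fun x => det3 q r x) e
  have h2 := congrArg (fun x => det3 r p x) e
  simp only [det3_comb, det3_self13, det3_self23, mul_zero, add_zero, zero_add] at h1 h2
  rw [det3_cyc] at h1
  rw [det3_cyc'] at h2
  exact ⟨mul_right_cancel₀ hr h1, mul_right_cancel₀ hr h2⟩

theorem Indep.cr_ne {p q : E3} (h : Indep p q) : cr p q ≠ 0 := by
  obtain ⟨r, hr⟩ := h
  intro h0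
  rw [← ip_cr, h0, inner_zero_left] at hr
  exact hr rfl

theorem indep_of_cr {p q : E3} (h : cr p q ≠ 0) : Indep p q :=
  ⟨cr p q, by rw [← ip_cr]; simpa using h⟩

theorem Indep.ne {p q : E3} (h : Indep p q) : p ≠ q := by
  rintro rfl
  obtain ⟨r, hr⟩ := h
  simp at hr

theorem Indep.ne_smul {p q : E3} (h : Indep p q) (c : ℝ) : p ≠ c • q := by
  intro e
  have := (h.coeff (s := 1) (t := 0) (s' := 0) (t' := c) (by simpa using e)).1
  norm_num at this

theorem gram2 (p q : E3) : ⟪cr p q, cr p q⟫ = ⟪p, p⟫ * ⟪q, q⟫ - ⟪p, q⟫ ^ 2 := by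
  simp only [ip_eq, cr_0, cr_1, cr_2]; ring

theorem Indep.sq_lt {p q : E3} (h : Indep p q) (hp : ⟪p, p⟫ = 1) (hq : ⟪q, q⟫ = 1) :
    ⟪p, q⟫ ^ 2 < 1 := by
  have h1 : 0 < ⟪cr p q, cr p q⟫ := real_inner_self_pos.2 h.cr_ne
  rw [gram2, hp, hq] at h1
  linarith

theorem indep_of_sq_lt {p q : E3} (hp : ⟪p, p⟫ = 1) (hq : ⟪q, q⟫ = 1) (h : ⟪p, q⟫ ^ 2 < 1) :
    Indep p q := by
  refine indep_of_cr fun h0 => ?_
  have := gram2 p q
  rw [h0, hp, hq, inner_zero_left] at this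
  linarith

/-- Two functionals vanishing on an independent pair are proportional. -/
theorem Indep.prop {p q n : E3} (h : Indep p q) (hn : n ≠ 0) (hp : ⟪n, p⟫ = 0) (hq : ⟪n, q⟫ = 0) :
    ∃ κ : ℝ, κ ≠ 0 ∧ ∀ x, det3 p q x = κ * ⟪n, x⟫ := by
  obtain ⟨r, hr⟩ := h
  have key : ∀ x, ⟪n, x⟫ = det3 p q x / det3 p q r * ⟪n, r⟫ := fun x => by
    conv_lhs => rw [cramer hr x]
    simp only [inner_add_right, inner_smul_right, hp, hq]; ring
  have hnr : ⟪n, r⟫ ≠ 0 := by
    intro h0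
    have := key n
    rw [h0, mul_zero] at this
    exact hn (inner_self_eq_zero.1 this)
  refine ⟨det3 p q r / ⟪n, r⟫, div_ne_zero hr hnr, fun x => ?_⟩
  rw [key x]; field_simp

theorem unit_eq_of_smul {p q : E3} (hp : ⟪p, p⟫ = 1) (hq : ⟪q, q⟫ = 1) {s : ℝ} (hs : 0 ≤ s)
    (e : p = s • q) : p = q := by
  have : s * s = 1 := by
    rw [e, inner_smul_left, inner_smul_right, hq] at hp
    simpa using hp
  have hs1 : s = 1 := by nlinarith
  rw [e, hs1, one_smul]

theorem norm_of_ip {p : E3} (hp : ⟪p, p⟫ = 1) : ‖p‖ = 1 := by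
  rw [real_inner_self_eq_norm_sq] at hp
  nlinarith [norm_nonneg p]

theorem ip_of_norm {p : E3} (hp : ‖p‖ = 1) : ⟪p, p⟫ = 1 := by
  rw [real_inner_self_eq_norm_sq, hp]; norm_num

theorem cos_angle_unit {p q : E3} (hp : ⟪p, p⟫ = 1) (hq : ⟪q, q⟫ = 1) :
    Real.cos (InnerProductGeometry.angle p q) = ⟪p, q⟫ := by
  rw [InnerProductGeometry.cos_angle, norm_of_ip hp, norm_of_ip hq]; simp

theorem angle_eq_of_ip {p q : E3} (hp : ⟪p, p⟫ = 1) (hq : ⟪q, q⟫ = 1) {θ : ℝ} (h0 : 0 ≤ θ)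
    (h1 : θ ≤ Real.pi) (h : ⟪p, q⟫ = Real.cos θ) : InnerProductGeometry.angle p q = θ := by
  refine Real.injOn_cos ⟨InnerProductGeometry.angle_nonneg _ _, InnerProductGeometry.angle_le_pi _ _⟩
    ⟨h0, h1⟩ ?_
  rw [cos_angle_unit hp hq, h]

theorem angle_sixty {p q : E3} (hp : ⟪p, p⟫ = 1) (hq : ⟪q, q⟫ = 1) (h : ⟪p, q⟫ = 1 / 2) :
    InnerProductGeometry.angle p q = Real.pi / 3 :=
  angle_eq_of_ip hp hq (by positivity) (by linarith [Real.pi_pos]) (by rw [h, Real.cos_pi_div_three])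

theorem angle_onetwenty {p q : E3} (hp : ⟪p, p⟫ = 1) (hq : ⟪q, q⟫ = 1) (h : ⟪p, q⟫ = -(1 / 2)) :
    InnerProductGeometry.angle p q = 2 * (Real.pi / 3) :=
  angle_eq_of_ip hp hq (by positivity) (by linarith [Real.pi_pos]) (by
    rw [h, show 2 * (Real.pi / 3) = Real.pi - Real.pi / 3 by ring, Real.cos_pi_sub,
      Real.cos_pi_div_three])

/-- Lattice directions in a plane. -/
theorem lattice_dir {u q y : E3} (hu : ⟪u, u⟫ = 1) (hq : ⟪q, q⟫ = 1) (huq : ⟪u, q⟫ = -(1 / 2))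
    (hy : ⟪y, y⟫ = 1) {s t : ℝ} (hs : 0 < s) (e : y = s • u + t • q) :
    (⟪y, q⟫ = -(1 / 2) → y = u) ∧ (⟪y, q⟫ = 1 / 2 → y = u + q) := by
  have hqu : ⟪q, u⟫ = -(1 / 2) := by rw [real_inner_comm]; exact huq
  have h1 : ⟪y, y⟫ = s ^ 2 - s * t + t ^ 2 := by
    rw [e]; simp only [inner_add_left, inner_add_right, inner_smul_left, inner_smul_right, hu, hq,
      huq, hqu, conj_trivial]; ring
  have h2 : ⟪y, q⟫ = -(s / 2) + t := by
    rw [e]; simp only [inner_add_left, inner_smul_left, hq, huq, conj_trivial]; ring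
  constructor
  · intro h
    have ht : t = (s - 1) / 2 := by linarith
    have hs1 : s = 1 := by rw [ht, hy] at h1; nlinarith
    rw [e, ht, hs1]; simp
  · intro h
    have ht : t = (s + 1) / 2 := by linarith
    have hs1 : s = 1 := by rw [ht, hy] at h1; nlinarith
    rw [e, ht, hs1]; norm_num

end Pool.Agent.Lib.MP_2b4858_co
end

-- part Pool.Agent.Lib.MP_2b4858_co.Dart
section

set_option autoImplicit false

namespace Pool.Agent.Lib.MP_2b4858_co

open scoped RealInnerProductSpace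

abbrev hull (V : Finset E3) : Set E3 := convexHull ℝ (V : Set E3)

def NonFlat (V : Finset E3) : Prop := ∀ (n : E3) (c : ℝ), n ≠ 0 → ∃ x ∈ hull V, ⟪n, x⟫ ≠ c

theorem nonFlat_of_interior {V : Finset E3} (h : (interior (hull V)).Nonempty) : NonFlat V := by
  obtain ⟨x, hx⟩ := h
  intro n c hn
  by_contra hc
  push Not at hc
  obtain ⟨ε, hε, hb⟩ := Metric.isOpen_iff.1 isOpen_interior x hx
  have hn' : 0 < ‖n‖ := norm_pos_iff.2 hn
  have hy : x + (ε / (2 * ‖n‖)) • n ∈ hull V := by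
    refine interior_subset (hb ?_)
    rw [mem_ball_iff_norm, add_sub_cancel_left, norm_smul, Real.norm_eq_abs,
      abs_of_pos (by positivity)]
    have : ε / (2 * ‖n‖) * ‖n‖ = ε / 2 := by field_simp
    rw [this]; linarith
  have h1 := hc _ hy
  rw [inner_add_right, hc x (interior_subset hx), inner_smul_right, real_inner_self_eq_norm_sq] at h1
  have : 0 < ε / (2 * ‖n‖) * ‖n‖ ^ 2 := by positivity
  linarith

theorem hull_face {V : Finset E3} {n : E3} {c : ℝ} (h : ∀ v ∈ V, ⟪n, v⟫ ≤ c) {K : Set E3}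
    (hK : Convex ℝ K) (hV : ∀ v ∈ V, ⟪n, v⟫ = c → v ∈ K) :
    ∀ x ∈ hull V, ⟪n, x⟫ ≤ c ∧ (⟪n, x⟫ = c → x ∈ K) := by
  refine fun x hx => convexHull_min (t := {x | ⟪n, x⟫ ≤ c ∧ (⟪n, x⟫ = c → x ∈ K)})
    (fun v hv => ⟨h v hv, hV v hv⟩) ?_ hx
  rintro x ⟨hx1, hx2⟩ y ⟨hy1, hy2⟩ a b ha hb hab
  have e : ⟪n, a • x + b • y⟫ = a * ⟪n, x⟫ + b * ⟪n, y⟫ := by
    rw [inner_add_right, inner_smul_right, inner_smul_right]
  have hc : c = a * c + b * c := by rw [← add_mul, hab, one_mul]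
  refine ⟨by rw [e]; nlinarith, fun he => ?_⟩
  rw [e] at he
  rcases ha.eq_or_lt with rfl | ha'
  · have hb1 : b = 1 := by linarith
    subst hb1
    simpa using hy2 (by linarith)
  rcases hb.eq_or_lt with rfl | hb'
  · have ha1 : a = 1 := by linarith
    subst ha1
    simpa using hx2 (by linarith)
  exact hK (hx2 (by nlinarith)) (hy2 (by nlinarith)) ha hb hab

theorem hull_le {V : Finset E3} {n : E3} {c : ℝ} (h : ∀ v ∈ V, ⟪n, v⟫ ≤ c) :
    ∀ x ∈ hull V, ⟪n, x⟫ ≤ c := fun x hx =>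
  (hull_face h convex_univ (fun _ _ _ => Set.mem_univ _) x hx).1

def Vert (V : Finset E3) (w : E3) : Prop := w ∈ (hull V).extremePoints ℝ

theorem Vert.mem {V : Finset E3} {w : E3} (h : Vert V w) : w ∈ hull V := h.1

theorem Vert.memV {V : Finset E3} {w : E3} (h : Vert V w) : w ∈ V :=
  extremePoints_convexHull_subset h

theorem Vert.pointed {V : Finset E3} {w : E3} (h : Vert V w) :
    ∃ μ : E3, ∀ x ∈ hull V, x ≠ w → 0 < ⟪μ, x - w⟫ := by
  classical
  have hsub : hull (V.erase w) ⊆ hull V := convexHull_mono (by simp)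
  have hw : w ∉ hull (V.erase w) := fun hw => by
    have := extremePoints_convexHull_subset
      (inter_extremePoints_subset_extremePoints_of_subset hsub ⟨hw, h⟩)
    simp at this
  obtain ⟨f, u, h1, h2⟩ := geometric_hahn_banach_point_closed (convex_convexHull ℝ _)
    ((V.erase w).finite_toSet.isCompact_convexHull ℝ).isClosed hw
  refine ⟨(InnerProductSpace.toDual ℝ E3).symm f, fun x hx hxw => ?_⟩
  have hf : ∀ y, ⟪-(InnerProductSpace.toDual ℝ E3).symm f, y⟫ = -f y := fun y => by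
    rw [inner_neg_left, InnerProductSpace.toDual_symm_apply]
  have hlt : ∀ v ∈ V, v ≠ w → f w < f v := fun v hv hvw =>
    h1.trans (h2 v (subset_convexHull ℝ _ (by simp [hv, hvw])))
  have := hull_face (V := V) (n := -(InnerProductSpace.toDual ℝ E3).symm f) (c := -f w)
    (K := {w}) (fun v hv => by
      rw [hf]
      rcases eq_or_ne v w with rfl | hvw
      · exact le_rfl
      · linarith [hlt v hv hvw]) (convex_singleton w) (fun v hv he => by
      by_contra hvw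
      rw [hf] at he
      linarith [hlt v hv hvw]) x hx
  rw [hf] at this
  rw [InnerProductSpace.toDual_symm_apply, map_sub]
  rcases this.1.eq_or_lt with he | hl
  · exact absurd (this.2 he) hxw
  · linarith

def InCone (V : Finset E3) (w d : E3) : Prop := ∃ t : ℝ, 0 < t ∧ w + t • d ∈ hull V

structure Dart (V : Finset E3) (σ : ℝ) (w p q : E3) : Prop where
  np : ⟪p, p⟫ = 1
  nq : ⟪q, q⟫ = 1
  ind : Indep p q
  vp : ∃ t : ℝ, 0 < t ∧ w + t • p ∈ V
  vq : ∃ t : ℝ, 0 < t ∧ w + t • q ∈ V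
  sup : ∀ x ∈ hull V, 0 ≤ σ * det3 p q (x - w)
  cone : ∀ x ∈ hull V, det3 p q (x - w) = 0 → ∃ s t : ℝ, 0 ≤ s ∧ 0 ≤ t ∧ x - w = s • p + t • q

def face (V : Finset E3) (w p q : E3) : Set E3 := {x ∈ hull V | det3 p q (x - w) = 0}

variable {V : Finset E3} {σ : ℝ} {w p q : E3}

theorem Dart.mirror (h : Dart V σ w p q) : Dart V (-σ) w q p :=
  ⟨h.nq, h.np, h.ind.symm, h.vq, h.vp, fun x hx => by
    rw [det3_swap12]; simpa using h.sup x hx, fun x hx he => by
    obtain ⟨s, t, hs, ht, e⟩ := h.cone x hx (by rw [det3_swap12] at he; simpa using he)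
    exact ⟨t, s, ht, hs, by rw [e, add_comm]⟩⟩

theorem Dart.mirror' (h : Dart V (-σ) w p q) : Dart V σ w q p := by
  simpa using h.mirror

theorem face_swap (V : Finset E3) (w p q : E3) : face V w q p = face V w p q := by
  ext x; simp only [face, Set.mem_ofPred_eq, det3_swap12 p q, neg_eq_zero]

theorem Dart.cp (h : Dart V σ w p q) : InCone V w p := by
  obtain ⟨t, ht, hv⟩ := h.vp
  exact ⟨t, ht, subset_convexHull ℝ _ hv⟩

theorem Dart.cq (h : Dart V σ w p q) : InCone V w q := h.mirror.cp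

theorem Dart.sup' (h : Dart V σ w p q) {d : E3} (hd : InCone V w d) : 0 ≤ σ * det3 p q d := by
  obtain ⟨t, ht, hv⟩ := hd
  have := h.sup _ hv
  rw [add_sub_cancel_left, det3_smul3] at this
  nlinarith

theorem Dart.cone' (h : Dart V σ w p q) {d : E3} (hd : InCone V w d) (he : det3 p q d = 0) :
    ∃ s t : ℝ, 0 ≤ s ∧ 0 ≤ t ∧ d = s • p + t • q := by
  obtain ⟨τ, hτ, hv⟩ := hd
  obtain ⟨s, t, hs, ht, e⟩ := h.cone _ hv (by rw [add_sub_cancel_left, det3_smul3, he, mul_zero])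
  rw [add_sub_cancel_left] at e
  refine ⟨s / τ, t / τ, by positivity, by positivity, ?_⟩
  have : d = τ⁻¹ • (τ • d) := by rw [smul_smul, inv_mul_cancel₀ hτ.ne', one_smul]
  rw [this, e, smul_add, smul_smul, smul_smul, div_eq_inv_mul, div_eq_inv_mul]

theorem NonFlat.det (hN : NonFlat V) (h : Indep p q) (w : E3) :
    ∃ x ∈ hull V, det3 p q (x - w) ≠ 0 := by
  obtain ⟨x, hx, hne⟩ := hN (cr p q) ⟪cr p q, w⟫ h.cr_ne
  refine ⟨x, hx, fun h0 => hne ?_⟩
  rw [← ip_cr, inner_sub_right] at h0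
  linarith

/-- A supporting functional proportional to that of a dart is a positive multiple. -/
theorem Dart.factor_pos (hN : NonFlat V) (hσ : σ ≠ 0) (h : Dart V σ w p q) {κ : ℝ} (hκ : κ ≠ 0)
    (hs : ∀ x ∈ hull V, 0 ≤ κ * (σ * det3 p q (x - w))) : 0 < κ := by
  obtain ⟨x, hx, hne⟩ := hN.det h.ind w
  have h1 : 0 < σ * det3 p q (x - w) := lt_of_le_of_ne (h.sup x hx) (mul_ne_zero hσ hne).symm
  exact lt_of_le_of_ne (nonneg_of_mul_nonneg_left (hs x hx) h1) hκ.symm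

theorem Dart.pred_unique (hσ : σ ≠ 0) (h : Dart V σ w p q) {p' : E3} (h' : Dart V σ w p' q) :
    p' = p := by
  have h1 := h.sup' h'.cp
  have h2 := h'.sup' h.cp
  rw [det3_swap13] at h2
  have h3 : det3 p q p' = 0 := by
    have : σ * det3 p q p' = 0 := by linarith
    exact (mul_eq_zero.1 this).resolve_left hσ
  obtain ⟨s, t, hs, ht, e⟩ := h.cone' h'.cp h3
  obtain ⟨s', t', hs', ht', e'⟩ := h'.cone' h.cp (by rw [det3_swap13, h3, neg_zero])
  have e2 : (1 : ℝ) • p + (0 : ℝ) • q = (s' * s) • p + (s' * t + t') • q := by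
    rw [one_smul, zero_smul, add_zero]
    conv_lhs => rw [e', e]
    module
  obtain ⟨c1, c2⟩ := h.ind.coeff e2
  have hs'0 : 0 < s' := lt_of_le_of_ne hs' (by rintro rfl; simp at c1)
  have ht0 : t = 0 := by nlinarith
  rw [ht0, zero_smul, add_zero] at e
  exact unit_eq_of_smul h'.np h.np hs e

theorem Dart.succ_unique (hσ : σ ≠ 0) (h : Dart V σ w p q) {q' : E3} (h' : Dart V σ w p q') :
    q' = q :=
  h.mirror.pred_unique (neg_ne_zero.2 hσ) h'.mirror

theorem Dart.det_pos (hN : NonFlat V) (hσ : σ ≠ 0) (h : Dart V σ w p q) {r : E3}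
    (h' : Dart V σ w q r) : 0 < σ * det3 p q r := by
  refine lt_of_le_of_ne (h.sup' h'.cq) fun h0 => ?_
  have h3 : det3 p q r = 0 := (mul_eq_zero.1 h0.symm).resolve_left hσ
  obtain ⟨s, t, hs, ht, e⟩ := h.cone' h'.cq h3
  have hs0 : s ≠ 0 := by
    rintro rfl
    rw [zero_smul, zero_add] at e
    exact h'.ind.symm.ne_smul t e
  have := h.factor_pos hN hσ (neg_ne_zero.2 hs0) fun x hx => by
    have := h'.sup x hx
    rw [e] at this
    convert this using 1
    simp [det3]; ring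
  linarith

/-- Corners of faces give darts. -/
theorem exists_dart (hσ : σ ≠ 0) (hw : Vert V w) {n : E3} (hn : n ≠ 0)
    (hsup : ∀ x ∈ hull V, ⟪n, x⟫ ≤ ⟪n, w⟫) (hnc : ¬ Collinear ℝ {x ∈ hull V | ⟪n, x⟫ = ⟪n, w⟫}) :
    ∃ p q, Dart V σ w p q ∧ ⟪n, p⟫ = 0 ∧ ⟪n, q⟫ = 0 := by
  classical
  obtain ⟨μ, hμ⟩ := hw.pointed
  set D := V.filter fun v => ⟪n, v⟫ = ⟪n, w⟫ ∧ v ≠ w with hD
  have hDm : ∀ v ∈ D, 0 < ⟪μ, v - w⟫ ∧ ⟪n, v - w⟫ = 0 := fun v hv => by
    obtain ⟨h1, h2, h3⟩ := Finset.mem_filter.1 hv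
    exact ⟨hμ v (subset_convexHull ℝ _ h1) h3, by rw [inner_sub_right, h2, sub_self]⟩
  have hsupV : ∀ v ∈ V, ⟪n, v⟫ ≤ ⟪n, w⟫ := fun v hv => hsup v (subset_convexHull ℝ _ hv)
  -- if all of `D` lies on a line through `w` then the face is collinear
  have hline : ∀ d : E3, ¬ ∀ v ∈ D, ∃ r : ℝ, v = r • d + w := by
    intro d hd
    refine hnc ((collinear_iff_of_mem (p₀ := w) (by exact ⟨hw.mem, rfl⟩)).2 ⟨d, fun x hx => ?_⟩)
    refine (hull_face hsupV (K := {x | ∃ r : ℝ, x = r • d + w}) ?_ ?_ x hx.1).2 hx.2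
    · rintro x ⟨r, rfl⟩ y ⟨r', rfl⟩ a b _ _ hab
      refine ⟨a * r + b * r', ?_⟩
      have : w = a • w + b • w := by rw [← add_smul, hab, one_smul]
      conv_rhs => rw [this]
      module
    · intro v hv he
      rcases eq_or_ne v w with rfl | hvw
      · exact ⟨0, by simp⟩
      · exact hd v (Finset.mem_filter.2 ⟨hv, he, hvw⟩)
  have hDne : D.Nonempty := by
    by_contra h0
    rw [Finset.not_nonempty_iff_eq_empty] at h0
    exact hline 0 (by simp [h0])
  have hind : Indep n μ := by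
    refine indep_of_cr fun h0 => ?_
    obtain ⟨v, hv⟩ := hDne
    obtain ⟨h1, h2⟩ := hDm v hv
    have e : ⟪n, n⟫ * ⟪μ, v - w⟫ - ⟪n, μ⟫ * ⟪n, v - w⟫ = det3 (cr n μ) n (v - w) := by
      simp only [ip_eq, det3, cr_0, cr_1, cr_2]; ring
    rw [h0, h2] at e
    have : 0 < ⟪n, n⟫ := real_inner_self_pos.2 hn
    simp only [det3, PiLp.zero_apply] at e
    nlinarith
  have hzero : ∀ x : E3, ⟪n, x⟫ = 0 → ⟪μ, x⟫ = 0 → det3 n μ x = 0 → x = 0 := by
    intro x h1 h2 h3
    obtain ⟨s, t, e⟩ := hind.plane h3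
    have : ⟪x, x⟫ = 0 := by
      nth_rewrite 1 [e]
      rw [inner_add_left, inner_smul_left, inner_smul_left, h1, h2]; simp
    exact inner_self_eq_zero.1 this
  let ρ : E3 → ℝ := fun v => det3 n μ (v - w) / ⟪μ, v - w⟫
  obtain ⟨v1, hv1, hmax⟩ := D.exists_max_image ρ hDne
  obtain ⟨v2, hv2, hmin⟩ := D.exists_min_image ρ hDne
  obtain ⟨m1, n1⟩ := hDm v1 hv1
  obtain ⟨m2, n2⟩ := hDm v2 hv2
  have hρ : ∀ v ∈ D, det3 n μ (v - w) = ρ v * ⟪μ, v - w⟫ := fun v hv => by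
    have := (hDm v hv).1
    simp only [ρ]; field_simp
  have hlt : ρ v2 < ρ v1 := by
    by_contra hle
    push Not at hle
    refine hline (v1 - w) fun v hv => ⟨⟪μ, v - w⟫ / ⟪μ, v1 - w⟫, ?_⟩
    have hr : ρ v = ρ v1 := le_antisymm (hmax v hv) (hle.trans (hmin v hv))
    have := hzero ((v - w) - (⟪μ, v - w⟫ / ⟪μ, v1 - w⟫) • (v1 - w))
      (by rw [inner_sub_right, inner_smul_right, n1, (hDm v hv).2]; simp)
      (by rw [inner_sub_right, inner_smul_right]; field_simp; ring)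
      (by rw [det3_sub3, det3_smul3, hρ v hv, hρ v1 hv1, hr]; field_simp; ring)
    rw [sub_eq_zero] at this
    rw [← this]; simp
  have hcomb : ∀ v ∈ D, ∃ s t : ℝ, 0 ≤ s ∧ 0 ≤ t ∧ v - w = s • (v1 - w) + t • (v2 - w) := by
    intro v hv
    have hm := (hDm v hv).1
    have a1 := sub_nonneg.2 (hmax v hv)
    have a2 := sub_nonneg.2 (hmin v hv)
    have a3 := sub_pos.2 hlt
    refine ⟨⟪μ, v - w⟫ * (ρ v - ρ v2) / (⟪μ, v1 - w⟫ * (ρ v1 - ρ v2)),
      ⟪μ, v - w⟫ * (ρ v1 - ρ v) / (⟪μ, v2 - w⟫ * (ρ v1 - ρ v2)), by positivity, by positivity, ?_⟩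
    rw [← sub_eq_zero]
    refine hzero _ ?_ ?_ ?_
    · rw [inner_sub_right, inner_add_right, inner_smul_right, inner_smul_right, n1, n2,
        (hDm v hv).2]; simp
    · rw [inner_sub_right, inner_add_right, inner_smul_right, inner_smul_right]
      field_simp; ring
    · rw [det3_sub3, det3_comb, hρ v hv, hρ v1 hv1, hρ v2 hv2]
      field_simp; ring
  have hd1 : v1 - w ≠ 0 := fun h0 => by rw [h0, inner_zero_right] at m1; exact lt_irrefl _ m1
  have hd2 : v2 - w ≠ 0 := fun h0 => by rw [h0, inner_zero_right] at m2; exact lt_irrefl _ m2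
  have hn1 : 0 < ‖v1 - w‖ := norm_pos_iff.2 hd1
  have hn2 : 0 < ‖v2 - w‖ := norm_pos_iff.2 hd2
  set p := ‖v1 - w‖⁻¹ • (v1 - w) with hp
  set q := ‖v2 - w‖⁻¹ • (v2 - w) with hq
  have ep : v1 - w = ‖v1 - w‖ • p := by rw [hp, smul_smul, mul_inv_cancel₀ hn1.ne', one_smul]
  have eq' : v2 - w = ‖v2 - w‖ • q := by rw [hq, smul_smul, mul_inv_cancel₀ hn2.ne', one_smul]
  have np : ⟪p, p⟫ = 1 := ip_of_norm (by rw [hp, norm_smul]; simp [hn1.ne'])
  have nq : ⟪q, q⟫ = 1 := ip_of_norm (by rw [hq, norm_smul]; simp [hn2.ne'])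
  have hnp : ⟪n, p⟫ = 0 := by rw [hp, inner_smul_right, n1, mul_zero]
  have hnq : ⟪n, q⟫ = 0 := by rw [hq, inner_smul_right, n2, mul_zero]
  have hpq : Indep p q := by
    refine ⟨n, fun h0 => ?_⟩
    have e : det3 (v1 - w) (v2 - w) n * det3 n μ (cr n μ)
        = ⟪n, n⟫ * (⟪μ, v1 - w⟫ * det3 n μ (v2 - w) - ⟪μ, v2 - w⟫ * det3 n μ (v1 - w))
          - ⟪n, v1 - w⟫ * (⟪μ, n⟫ * det3 n μ (v2 - w))
          + ⟪n, v2 - w⟫ * (⟪μ, n⟫ * det3 n μ (v1 - w)) := by
      simp only [ip_eq, det3, cr_0, cr_1, cr_2]; ring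
    have e2 : det3 (v1 - w) (v2 - w) n = ‖v1 - w‖ * ‖v2 - w‖ * det3 p q n := by
      conv_lhs => rw [ep, eq']
      simp [det3]; ring
    rw [e2, h0, n1, n2, hρ v1 hv1, hρ v2 hv2] at e
    have a : 0 < ⟪n, n⟫ := real_inner_self_pos.2 hn
    have b : 0 < ⟪n, n⟫ * (⟪μ, v1 - w⟫ * ⟪μ, v2 - w⟫ * (ρ v1 - ρ v2)) := by
      have := sub_pos.2 hlt
      positivity
    nlinarith
  have hvp : ∃ t : ℝ, 0 < t ∧ w + t • p ∈ V :=
    ⟨_, hn1, by rw [← ep]; simpa using (Finset.mem_filter.1 hv1).1⟩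
  have hvq : ∃ t : ℝ, 0 < t ∧ w + t • q ∈ V :=
    ⟨_, hn2, by rw [← eq']; simpa using (Finset.mem_filter.1 hv2).1⟩
  obtain ⟨κ, hκ, hprop⟩ := hpq.prop hn hnp hnq
  have hcone : ∀ x ∈ hull V, det3 p q (x - w) = 0 →
      ∃ s t : ℝ, 0 ≤ s ∧ 0 ≤ t ∧ x - w = s • p + t • q := by
    intro x hx h0
    rw [hprop, inner_sub_right] at h0
    have h1 : ⟪n, x⟫ = ⟪n, w⟫ := sub_eq_zero.1 ((mul_eq_zero.1 h0).resolve_left hκ)
    refine (hull_face hsupV (K := {x | ∃ s t : ℝ, 0 ≤ s ∧ 0 ≤ t ∧ x - w = s • p + t • q})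
      ?_ ?_ x hx).2 h1
    · rintro x ⟨s, t, hs, ht, e⟩ y ⟨s', t', hs', ht', e'⟩ a b ha hb hab
      refine ⟨a * s + b * s', a * t + b * t', by positivity, by positivity, ?_⟩
      have : a • x + b • y - w = a • (x - w) + b • (y - w) := by
        have : w = a • w + b • w := by rw [← add_smul, hab, one_smul]
        conv_lhs => rw [this]
        module
      rw [this, e, e']; module
    · intro v hv he
      rcases eq_or_ne v w with rfl | hvw
      · exact ⟨0, 0, le_rfl, le_rfl, by simp⟩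
      · obtain ⟨s, t, hs, ht, e⟩ := hcomb v (Finset.mem_filter.2 ⟨hv, he, hvw⟩)
        refine ⟨s * ‖v1 - w‖, t * ‖v2 - w‖, by positivity, by positivity, ?_⟩
        rw [e]
        conv_lhs => rw [ep, eq']
        module
  have hsgn : ∀ x ∈ hull V, ⟪n, x - w⟫ ≤ 0 := fun x hx => by
    rw [inner_sub_right]; linarith [hsup x hx]
  rcases lt_or_gt_of_ne (mul_ne_zero hσ hκ) with hneg | hpos
  · refine ⟨p, q, ⟨np, nq, hpq, hvp, hvq, fun x hx => ?_, hcone⟩, hnp, hnq⟩
    rw [hprop]; nlinarith [hsgn x hx]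
  · refine ⟨q, p, Dart.mirror' ⟨np, nq, hpq, hvp, hvq, fun x hx => ?_, hcone⟩, hnq, hnp⟩
    rw [hprop]; nlinarith [hsgn x hx]

end Pool.Agent.Lib.MP_2b4858_co
end

-- part Pool.Agent.Lib.MP_2b4858_co.Dart2
section

set_option autoImplicit false

namespace Pool.Agent.Lib.MP_2b4858_co

open scoped RealInnerProductSpace

variable {V : Finset E3} {σ : ℝ} {w p q : E3}

theorem not_collinear_of_indep {S : Set E3} (h : Indep p q) (hw : w ∈ S) {s t : ℝ} (hs : s ≠ 0)
    (ht : t ≠ 0) (h1 : w + s • p ∈ S) (h2 : w + t • q ∈ S) : ¬ Collinear ℝ S := by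
  intro hc
  obtain ⟨d, hd⟩ := (collinear_iff_of_mem hw).1 hc
  obtain ⟨r, hr⟩ := hd _ h1
  obtain ⟨r', hr'⟩ := hd _ h2
  rw [vadd_eq_add, add_comm, add_left_inj] at hr hr'
  obtain ⟨x, hx⟩ := h
  have e : s * t * det3 p q x = det3 (s • p) (t • q) x := by simp [det3]; ring
  rw [hr, hr'] at e
  have e2 : det3 (r • d) (r' • d) x = 0 := by simp [det3]; ring
  rw [e2] at e
  exact mul_ne_zero (mul_ne_zero hs ht) hx e

theorem exists_dart' (hσ : σ ≠ 0) (hw : Vert V w) {N d1 d2 : E3} (hN : N ≠ 0)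
    (hsup : ∀ x ∈ hull V, 0 ≤ ⟪N, x - w⟫) (h1 : InCone V w d1) (h2 : InCone V w d2)
    (hi : Indep d1 d2) (e1 : ⟪N, d1⟫ = 0) (e2 : ⟪N, d2⟫ = 0) :
    ∃ p q, Dart V σ w p q ∧ ⟪N, p⟫ = 0 ∧ ⟪N, q⟫ = 0 := by
  obtain ⟨s, hs, h1⟩ := h1
  obtain ⟨t, ht, h2⟩ := h2
  obtain ⟨p, q, hd, hp, hq⟩ := exists_dart hσ hw (n := -N) (neg_ne_zero.2 hN)
    (fun x hx => by
      have := hsup x hx
      rw [inner_sub_right] at this
      simp only [inner_neg_left]; linarith)
    (not_collinear_of_indep hi ⟨hw.mem, rfl⟩ hs.ne' ht.ne'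
      ⟨h1, by simp [inner_add_right, inner_smul_right, e1]⟩
      ⟨h2, by simp [inner_add_right, inner_smul_right, e2]⟩)
  exact ⟨p, q, hd, by simpa using hp, by simpa using hq⟩

/-- If a unit vector in the cone of a dart is killed by a functional that is nonnegative on both
generators and not zero on both, it is one of the generators. -/
theorem eq_or_eq_of_cone {d : E3} (hp : ⟪p, p⟫ = 1) (hq : ⟪q, q⟫ = 1) (hd : ⟪d, d⟫ = 1) {s t a b : ℝ}
    (hs : 0 ≤ s) (ht : 0 ≤ t) (e : d = s • p + t • q) (ha : 0 ≤ a) (hb : 0 ≤ b)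
    (hab : ¬ (a = 0 ∧ b = 0)) (h0 : s * a + t * b = 0) : d = p ∨ d = q := by
  have h1 : s * a = 0 := by nlinarith [mul_nonneg hs ha, mul_nonneg ht hb]
  have h2 : t * b = 0 := by nlinarith [mul_nonneg hs ha, mul_nonneg ht hb]
  by_cases ha0 : a = 0
  · have hb0 : b ≠ 0 := fun h => hab ⟨ha0, h⟩
    have : t = 0 := (mul_eq_zero.1 h2).resolve_right hb0
    rw [this, zero_smul, add_zero] at e
    exact Or.inl (unit_eq_of_smul hd hp hs e)
  · have : s = 0 := (mul_eq_zero.1 h1).resolve_right ha0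
    rw [this, zero_smul, zero_add] at e
    exact Or.inr (unit_eq_of_smul hd hq ht e)

theorem Dart.exists_succ (hN : NonFlat V) (hσ : σ ≠ 0) (hw : Vert V w) (h : Dart V σ w p q) :
    ∃ r, Dart V σ w q r := by
  classical
  set N := cr p q with hNdef
  have hNp : 0 < det3 q N p := by
    rw [det3_cyc, ← ip_cr]; exact real_inner_self_pos.2 h.ind.cr_ne
  set D := V.filter fun v => 0 < σ * det3 p q (v - w) with hD
  have hDne : D.Nonempty := by
    by_contra h0
    rw [Finset.not_nonempty_iff_eq_empty] at h0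
    obtain ⟨x, hx, hne⟩ := hN.det h.ind w
    have := hull_le (V := V) (n := σ • N) (c := ⟪σ • N, w⟫) (fun v hv => by
      have : ¬ 0 < σ * det3 p q (v - w) := fun hpos => by
        have : v ∈ D := Finset.mem_filter.2 ⟨hv, hpos⟩
        simp [h0] at this
      rw [← ip_cr, inner_sub_right] at this
      simp only [inner_smul_left, conj_trivial]
      linarith) x hx
    have h1 := h.sup x hx
    have h2 := mul_ne_zero hσ hne
    rw [← ip_cr, inner_sub_right] at h1 h2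
    simp only [inner_smul_left, conj_trivial] at this
    exact h2 (by linarith)
  let ρ : E3 → ℝ := fun v => det3 q N (v - w) / (σ * det3 p q (v - w))
  obtain ⟨v, hv, hmin⟩ := D.exists_min_image ρ hDne
  obtain ⟨hvV, hv1⟩ := Finset.mem_filter.1 hv
  set M := (σ * det3 p q (v - w)) • cr q N - (det3 q N (v - w) * σ) • N with hM
  have hMx : ∀ x, ⟪M, x⟫ = σ * det3 p q (v - w) * det3 q N x
      - det3 q N (v - w) * (σ * det3 p q x) := fun x => by
    rw [hM, inner_sub_left, inner_smul_left, inner_smul_left, ip_cr, hNdef, ip_cr]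
    simp only [conj_trivial]; ring
  have hMp : 0 < ⟪M, p⟫ := by rw [hMx, det3_self13]; nlinarith [mul_pos hv1 hNp]
  have hMq : ⟪M, q⟫ = 0 := by rw [hMx]; simp
  have hMv : ⟪M, v - w⟫ = 0 := by rw [hMx]; ring
  have hM0 : M ≠ 0 := fun h0 => by rw [h0, inner_zero_left] at hMp; exact lt_irrefl _ hMp
  have hsup : ∀ x ∈ hull V, 0 ≤ ⟪M, x - w⟫ := by
    intro x hx
    have := hull_le (V := V) (n := -M) (c := ⟪-M, w⟫) (fun y hy => by
      have : 0 ≤ ⟪M, y - w⟫ := by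
        have hy' : y ∈ hull V := subset_convexHull ℝ _ hy
        rcases (h.sup y hy').eq_or_lt with h0 | hpos
        · obtain ⟨s, t, hs, ht, e⟩ := h.cone y hy' ((mul_eq_zero.1 h0.symm).resolve_left hσ)
          rw [e, inner_add_right, inner_smul_right, inner_smul_right, hMq]
          nlinarith [mul_nonneg hs hMp.le]
        · have := hmin y (Finset.mem_filter.2 ⟨hy, hpos⟩)
          simp only [ρ] at this
          rw [div_le_div_iff₀ hv1 hpos] at this
          rw [hMx]; linarith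
      rw [inner_sub_right] at this
      simp only [inner_neg_left]; linarith) x hx
    simp only [inner_neg_left] at this
    rw [inner_sub_right]; linarith
  have hcv : InCone V w (v - w) := ⟨1, one_pos, by simpa using subset_convexHull ℝ _ hvV⟩
  have hi : Indep q (v - w) := ⟨p, by
    rw [det3_cyc]; exact right_ne_zero_of_mul hv1.ne'⟩
  obtain ⟨p', q', hd, hp', hq'⟩ := exists_dart' hσ hw hM0 hsup h.cq hcv hi hMq hMv
  obtain ⟨κ, hκ, hprop⟩ := hd.ind.prop hM0 hp' hq'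
  obtain ⟨s, t, hs, ht, e⟩ := hd.cone' h.cq (by rw [hprop, hMq, mul_zero])
  obtain ⟨s', t', hs', ht', e'⟩ := hd.cone' hcv (by rw [hprop, hMv, mul_zero])
  rcases eq_or_eq_of_cone hd.np hd.nq h.nq hs ht e (h.sup' hd.cp) (h.sup' hd.cq)
    (fun ⟨a, b⟩ => by
      rw [e', det3_comb] at hv1
      nlinarith)
    (by
      have := congrArg (fun x => σ * det3 p q x) e
      simp only [det3_self23, det3_comb] at this
      linarith) with e1 | e1
  · exact ⟨q', e1 ▸ hd⟩
  · have := h.pred_unique hσ (e1 ▸ hd)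
    rw [this] at hp'
    linarith

theorem Dart.exists_pred (hN : NonFlat V) (hσ : σ ≠ 0) (hw : Vert V w) (h : Dart V σ w p q) :
    ∃ r, Dart V σ w r p := by
  obtain ⟨r, hr⟩ := h.mirror.exists_succ hN (neg_ne_zero.2 hσ) hw
  exact ⟨r, hr.mirror'⟩

theorem Dart.isFace (hσ : σ ≠ 0) (hw : w ∈ hull V) (h : Dart V σ w p q) :
    IsFace (hull V) (face V w p q) := by
  refine ⟨-σ • cr p q, ⟪-σ • cr p q, w⟫, smul_ne_zero (neg_ne_zero.2 hσ) h.ind.cr_ne,
    fun x hx => ?_, ?_, ?_⟩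
  · have := h.sup x hx
    rw [← ip_cr, inner_sub_right] at this
    simp only [inner_smul_left, conj_trivial]; linarith
  · ext x
    simp only [face, Set.mem_ofPred_eq, ← ip_cr, inner_sub_right, inner_smul_left, conj_trivial,
      sub_eq_zero, mul_right_inj' (neg_ne_zero.2 hσ)]
  · obtain ⟨s, hs, h1⟩ := h.cp
    obtain ⟨t, ht, h2⟩ := h.cq
    exact not_collinear_of_indep h.ind (w := w) ⟨hw, by simp⟩ hs.ne' ht.ne'
      ⟨h1, by simp [det3_smul3]⟩ ⟨h2, by simp [det3_smul3]⟩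

theorem corner_unique {r r' : E3} (hi : Indep p q) (hp : ⟪p, p⟫ = 1) (hq : ⟪q, q⟫ = 1)
    (hr : ⟪r, r⟫ = 1) (hr' : ⟪r', r'⟫ = 1)
    (h1 : ∃ s t : ℝ, 0 ≤ s ∧ 0 ≤ t ∧ r = s • p + t • q)
    (h2 : ∃ s t : ℝ, 0 ≤ s ∧ 0 ≤ t ∧ r' = s • p + t • q)
    (h3 : ∃ s t : ℝ, 0 ≤ s ∧ 0 ≤ t ∧ p = s • r + t • r')
    (h4 : ∃ s t : ℝ, 0 ≤ s ∧ 0 ≤ t ∧ q = s • r + t • r') :
    (r = p ∧ r' = q) ∨ (r = q ∧ r' = p) := by
  obtain ⟨a, b, ha, hb, e1⟩ := h1
  obtain ⟨c, d, hc, hd, e2⟩ := h2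
  obtain ⟨α, β, hα, hβ, e3⟩ := h3
  obtain ⟨γ, δ, hγ, hδ, e4⟩ := h4
  obtain ⟨c1, c2⟩ := hi.coeff (s := 1) (t := 0) (s' := α * a + β * c) (t' := α * b + β * d) (by
    rw [one_smul, zero_smul, add_zero]
    conv_lhs => rw [e3, e1, e2]
    module)
  obtain ⟨c3, c4⟩ := hi.coeff (s := 0) (t := 1) (s' := γ * a + δ * c) (t' := γ * b + δ * d) (by
    rw [one_smul, zero_smul, zero_add]
    conv_lhs => rw [e4, e1, e2]
    module)
  have z1 : α * b = 0 := by nlinarith [mul_nonneg hα hb, mul_nonneg hβ hd]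
  have z2 : β * d = 0 := by nlinarith [mul_nonneg hα hb, mul_nonneg hβ hd]
  have z3 : γ * a = 0 := by nlinarith [mul_nonneg hγ ha, mul_nonneg hδ hc]
  have z4 : δ * c = 0 := by nlinarith [mul_nonneg hγ ha, mul_nonneg hδ hc]
  by_cases hb0 : b = 0
  · left
    have hδ0 : δ ≠ 0 := by rintro rfl; simp [hb0] at c4
    have hc0 : c = 0 := (mul_eq_zero.1 z4).resolve_left hδ0
    rw [hb0, zero_smul, add_zero] at e1
    rw [hc0, zero_smul, zero_add] at e2
    exact ⟨unit_eq_of_smul hr hp ha e1, unit_eq_of_smul hr' hq hd e2⟩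
  · right
    have hα0 : α = 0 := (mul_eq_zero.1 z1).resolve_right hb0
    have hβ0 : β ≠ 0 := by rintro rfl; simp [hα0] at c1
    have hd0 : d = 0 := (mul_eq_zero.1 z2).resolve_left hβ0
    have hγ0 : γ ≠ 0 := by rintro rfl; simp [hd0] at c4
    have ha0 : a = 0 := (mul_eq_zero.1 z3).resolve_left hγ0
    rw [ha0, zero_smul, zero_add] at e1
    rw [hd0, zero_smul, add_zero] at e2
    exact ⟨unit_eq_of_smul hr hq hb e1, unit_eq_of_smul hr' hp hc e2⟩

theorem Dart.not_swap (hN : NonFlat V) (hσ : σ ≠ 0) (h : Dart V σ w p q) :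
    ¬ Dart V σ w q p := fun h' => by
  have := h.det_pos hN hσ h'
  simp at this

theorem Dart.unique_of_plane (hN : NonFlat V) (hσ : σ ≠ 0) (h : Dart V σ w p q) {p' q' : E3}
    (h' : Dart V σ w p' q') (e1 : det3 p q p' = 0) (e2 : det3 p q q' = 0) : p' = p ∧ q' = q := by
  obtain ⟨κ, hκ, hprop⟩ := h'.ind.prop h.ind.cr_ne (by rw [ip_cr, e1]) (by rw [ip_cr, e2])
  rcases corner_unique h.ind h.np h.nq h'.np h'.nq (h.cone' h'.cp e1) (h.cone' h'.cq e2)
    (h'.cone' h.cp (by rw [hprop, ip_cr]; simp)) (h'.cone' h.cq (by rw [hprop, ip_cr]; simp))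
    with h1 | ⟨h1, h2⟩
  · exact h1
  · exact absurd (h1 ▸ h2 ▸ h') (h.not_swap hN hσ)

theorem Dart.mem_face_p (h : Dart V σ w p q) : ∃ t : ℝ, 0 < t ∧ w + t • p ∈ face V w p q := by
  obtain ⟨s, hs, h1⟩ := h.cp
  exact ⟨s, hs, h1, by simp [det3_smul3]⟩

theorem Dart.mem_face_q (h : Dart V σ w p q) : ∃ t : ℝ, 0 < t ∧ w + t • q ∈ face V w p q := by
  obtain ⟨s, hs, h1⟩ := h.cq
  exact ⟨s, hs, h1, by simp [det3_smul3]⟩

theorem Dart.unique_of_face (hN : NonFlat V) (hσ : σ ≠ 0) (h : Dart V σ w p q) {p' q' : E3}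
    (h' : Dart V σ w p' q') (e : face V w p' q' = face V w p q) : p' = p ∧ q' = q := by
  obtain ⟨s, hs, h1⟩ := h'.mem_face_p
  obtain ⟨t, ht, h2⟩ := h'.mem_face_q
  rw [e] at h1 h2
  have a := h1.2
  have b := h2.2
  rw [add_sub_cancel_left, det3_smul3] at a b
  exact h.unique_of_plane hN hσ h' ((mul_eq_zero.1 a).resolve_left hs.ne')
    ((mul_eq_zero.1 b).resolve_left ht.ne')

/-- `v` is the far end of the edge from `w` in direction `q`. -/
def IsNext (V : Finset E3) (w q v : E3) : Prop :=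
  ∃ t : ℝ, 0 < t ∧ v = w + t • q ∧ v ∈ hull V ∧ ∀ t' : ℝ, w + t' • q ∈ hull V → t' ≤ t

theorem IsNext.unique {v v' : E3} (h : IsNext V w q v) (h' : IsNext V w q v') : v = v' := by
  obtain ⟨t, _, e, hv, hm⟩ := h
  obtain ⟨t', _, e', hv', hm'⟩ := h'
  have : t = t' := le_antisymm (hm' t (e ▸ hv)) (hm t' (e' ▸ hv'))
  rw [e, e', this]

theorem exists_next (hq : ⟪q, q⟫ = 1) (hc : InCone V w q) : ∃ v, IsNext V w q v := by
  obtain ⟨τ, hτ, hτm⟩ := hc
  have hK : IsCompact (hull V) := V.finite_toSet.isCompact_convexHull ℝ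
  have hcont : Continuous fun x : E3 => ⟪q, x - w⟫ := by fun_prop
  let S : Set E3 := hull V ∩ {x | x = w + ⟪q, x - w⟫ • q}
  have hS : IsCompact S := hK.inter_right (isClosed_eq continuous_id (by fun_prop))
  have hmem : ∀ t : ℝ, w + t • q ∈ hull V → w + t • q ∈ S ∧ ⟪q, w + t • q - w⟫ = t := by
    intro t ht
    have : ⟪q, w + t • q - w⟫ = t := by rw [add_sub_cancel_left, inner_smul_right, hq, mul_one]
    exact ⟨⟨ht, by simp only [Set.mem_ofPred_eq]; rw [this]⟩, this⟩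
  obtain ⟨v, hv, hmax⟩ := hS.exists_isMaxOn ⟨_, (hmem τ hτm).1⟩ hcont.continuousOn
  have hle : ∀ t' : ℝ, w + t' • q ∈ hull V → t' ≤ ⟪q, v - w⟫ := fun t' ht' => by
    have := hmax (hmem t' ht').1
    simp only [Set.mem_ofPred_eq] at this
    rwa [(hmem t' ht').2] at this
  exact ⟨v, ⟪q, v - w⟫, hτ.trans_le (hle τ hτm), hv.2, hv.1, hle⟩

theorem Dart.on_edge (hN : NonFlat V) (hσ : σ ≠ 0) (h : Dart V σ w p q) {r : E3}
    (h' : Dart V σ w q r) {x : E3} (hx : x ∈ hull V) (e1 : det3 p q (x - w) = 0)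
    (e2 : det3 q r (x - w) = 0) : ∃ t : ℝ, 0 ≤ t ∧ x = w + t • q := by
  obtain ⟨s, t, hs, ht, e⟩ := h.cone x hx e1
  have hpos := h.det_pos hN hσ h'
  rw [e, det3_comb, det3_self13, det3_cyc] at e2
  have : s = 0 := by
    have h1 : s * det3 p q r = 0 := by linarith
    exact (mul_eq_zero.1 h1).resolve_right (right_ne_zero_of_mul hpos.ne')
  rw [this, zero_smul, zero_add] at e
  exact ⟨t, ht, by rw [← e]; simp⟩

theorem Dart.next_vert (hN : NonFlat V) (hσ : σ ≠ 0) (hw : Vert V w) (h : Dart V σ w p q)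
    {v : E3} (hv : IsNext V w q v) : Vert V v := by
  obtain ⟨r, h'⟩ := h.exists_succ hN hσ hw
  obtain ⟨t, ht, e, hvm, hm⟩ := hv
  refine mem_extremePoints_iff_left.2 ⟨hvm, fun x hx y hy ⟨a, b, ha, hb, hab, hxy⟩ => ?_⟩
  have e0 : a • (x - w) + b • (y - w) = t • q := by
    have : w = a • w + b • w := by rw [← add_smul, hab, one_smul]
    have e' : t • q = v - w := by rw [e]; simp
    rw [e', ← hxy]
    conv_rhs => rw [this]
    module
  have key : ∀ p' q' : E3, Dart V σ w p' q' → det3 p' q' q = 0 →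
      det3 p' q' (x - w) = 0 ∧ det3 p' q' (y - w) = 0 := by
    intro p' q' hd h0
    have h1 := hd.sup x hx
    have h2 := hd.sup y hy
    have h3 := congrArg (fun z => σ * det3 p' q' z) e0
    simp only [det3_comb, det3_smul3, h0, mul_zero] at h3
    have h4 : a * (σ * det3 p' q' (x - w)) = 0 := by nlinarith [mul_nonneg ha.le h1, mul_nonneg hb.le h2]
    have h5 : b * (σ * det3 p' q' (y - w)) = 0 := by nlinarith [mul_nonneg ha.le h1, mul_nonneg hb.le h2]
    exact ⟨by simpa [ha.ne', hσ] using h4, by simpa [hb.ne', hσ] using h5⟩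
  obtain ⟨a1, a2⟩ := key p q h (by simp)
  obtain ⟨b1, b2⟩ := key q r h' (by simp)
  obtain ⟨tx, _, ex⟩ := h.on_edge hN hσ h' hx a1 b1
  obtain ⟨ty, _, ey⟩ := h.on_edge hN hσ h' hy a2 b2
  have l1 := hm tx (ex ▸ hx)
  have l2 := hm ty (ey ▸ hy)
  have e1 : a * tx + b * ty = t := by
    have := congrArg (fun z => ⟪q, z⟫) e0
    simp only [ex, ey, add_sub_cancel_left, inner_add_right, inner_smul_right, h.nq] at this
    linarith
  have : tx = t := by
    have : t = a * t + b * t := by rw [← add_mul, hab, one_mul]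
    nlinarith
  rw [ex, e, this]

theorem Dart.next_dart (hN : NonFlat V) (hσ : σ ≠ 0) (hw : Vert V w) (h : Dart V σ w p q)
    {v : E3} (hv : IsNext V w q v) :
    ∃ (y : E3) (s t : ℝ), Dart V σ v (-q) y ∧ 0 < s ∧ y = s • p + t • q := by
  have hvv := h.next_vert hN hσ hw hv
  obtain ⟨r, h'⟩ := h.exists_succ hN hσ hw
  obtain ⟨t, ht, e, hvm, hm⟩ := hv
  have hshift : ∀ x p' q' : E3, det3 p' q' q = 0 → det3 p' q' (x - v) = det3 p' q' (x - w) := by
    intro x p' q' h0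
    have : x - v = (x - w) - t • q := by rw [e]; abel
    rw [this, det3_sub3, det3_smul3, h0]; ring
  have hcq : InCone V v (-q) := ⟨t, ht, by rw [e]; simpa using hw.mem⟩
  obtain ⟨τ, hτ, hτm⟩ := h.cp
  have hcp : InCone V v (τ • p - t • q) := ⟨1, one_pos, by
    rw [e]; convert hτm using 1; module⟩
  have hi : Indep (-q) (τ • p - t • q) := by
    obtain ⟨x, hx⟩ := h.ind
    refine ⟨x, ?_⟩
    have : det3 (-q) (τ • p - t • q) x = τ * det3 p q x := by simp [det3]; ring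
    rw [this]; exact mul_ne_zero hτ.ne' hx
  have hM0 : σ • cr p q ≠ 0 := smul_ne_zero hσ h.ind.cr_ne
  have hMx : ∀ x, ⟪σ • cr p q, x⟫ = σ * det3 p q x := fun x => by
    rw [inner_smul_left, ip_cr]; simp
  obtain ⟨p', q', hd, hp', hq'⟩ := exists_dart' hσ hvv hM0
    (fun x hx => by rw [hMx, hshift x p q (by simp)]; exact h.sup x hx) hcq hcp hi
    (by rw [hMx, det3_neg3]; simp) (by rw [hMx, det3_sub3, det3_smul3, det3_smul3]; simp)
  obtain ⟨κ, hκ, hprop⟩ := hd.ind.prop hM0 hp' hq'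
  have hf2 : ∀ d, InCone V v d → 0 ≤ σ * det3 q r d := by
    rintro d ⟨s, hs, hsm⟩
    have := h'.sup _ hsm
    rw [← hshift _ q r (by simp), add_sub_cancel_left, det3_smul3] at this
    nlinarith
  have hpos := h.det_pos hN hσ h'
  obtain ⟨s1, t1, hs1, ht1, e1⟩ := hd.cone' hcq (by rw [hprop, hMx, det3_neg3]; simp)
  obtain ⟨s2, t2, hs2, ht2, e2⟩ := hd.cone' hcp
    (by rw [hprop, hMx, det3_sub3, det3_smul3, det3_smul3]; simp)
  have hnq : ⟪-q, -q⟫ = (1 : ℝ) := by simpa using h.nq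
  have hcoef : ∀ y, InCone V v y → ⟪σ • cr p q, y⟫ = 0 → Indep (-q) y →
      ∃ s t : ℝ, 0 < s ∧ y = s • p + t • q := by
    intro y hy h0 hi
    rw [hMx] at h0
    obtain ⟨s, t, e⟩ := h.ind.plane ((mul_eq_zero.1 h0).resolve_left hσ)
    have h1 := hf2 y hy
    rw [e, det3_comb, det3_self13, det3_cyc] at h1
    have hs : 0 ≤ s := by nlinarith
    refine ⟨s, t, lt_of_le_of_ne hs ?_, e⟩
    rintro rfl
    exact hi.symm.ne_smul (-t) (by rw [e]; simp)
  rcases eq_or_eq_of_cone hd.np hd.nq hnq hs1 ht1 e1 (hf2 _ hd.cp) (hf2 _ hd.cq)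
    (fun ⟨a, b⟩ => by
      have := congrArg (fun x => σ * det3 q r x) e2
      simp only [det3_comb, det3_sub3, det3_smul3, det3_self13, det3_cyc p q r] at this
      nlinarith [mul_pos hτ hpos])
    (by
      have := congrArg (fun x => σ * det3 q r x) e1
      simp only [det3_comb, det3_neg3, det3_self13] at this
      linarith) with e3 | e3
  · obtain ⟨s, t, hs, e⟩ := hcoef q' hd.cq hq' (e3 ▸ hd.ind)
    exact ⟨q', s, t, e3 ▸ hd, hs, e⟩
  · exfalso
    obtain ⟨s, t, hs, e⟩ := hcoef p' hd.cp hp' (e3 ▸ hd.ind.symm)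
    have := h.factor_pos hN hσ (neg_ne_zero.2 hs.ne') fun x hx => by
      have := hd.sup x hx
      rw [← e3, e] at this
      rw [← hshift x p q (by simp)]
      convert this using 1
      simp [det3]; ring
    linarith

theorem face_next {v y : E3} (hv : IsNext V w q v) {s t : ℝ} (hs : 0 < s)
    (e : y = s • p + t • q) : face V v (-q) y = face V w p q := by
  obtain ⟨τ, _, ev, _, _⟩ := hv
  ext x
  have : det3 (-q) y (x - v) = s * det3 p q (x - w) := by
    rw [e, ev]; simp [det3]; ring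
  simp only [face, Set.mem_ofPred_eq, this, mul_eq_zero, hs.ne', false_or]

theorem Dart.next_back (hw : Vert V w) (h : Dart V σ w p q) {v : E3} (hv : IsNext V w q v) :
    IsNext V v (-q) w := by
  obtain ⟨t, ht, e, hvm, _⟩ := hv
  refine ⟨t, ht, by rw [e]; simp, hw.mem, fun t' ht' => ?_⟩
  have e1 : v + t' • -q - w = (0 : ℝ) • p + (t - t') • q := by rw [e]; module
  obtain ⟨a, b, _, hb, e2⟩ := h.cone _ ht' (by rw [e1, det3_comb]; simp)
  have := (h.ind.coeff (e1.symm.trans e2)).2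
  linarith

end Pool.Agent.Lib.MP_2b4858_co
end

-- part Pool.Agent.Lib.MP_2b4858_co.Planar
section

set_option autoImplicit false

namespace Pool.Agent.Lib.MP_2b4858_co

open scoped RealInnerProductSpace
open InnerProductGeometry Real MeasureTheory

theorem arcs_sum_le {ι : Type} (S : Finset ι) (U : ι → Set ℝ) (hU : ∀ i ∈ S, IsOpen (U i))
    (hper : ∀ i ∈ S, ∀ x, x + 2 * π ∈ U i ↔ x ∈ U i)
    (hdisj : ∀ i ∈ S, ∀ j ∈ S, i ≠ j → ∀ x ∈ U i, x ∉ U j) (ℓ : ι → ℝ)
    (hℓ : ∀ i ∈ S, 0 ≤ ℓ i ∧ ℓ i ≤ 2 * π ∧ ∃ a, ∀ x ∈ Set.Ioo a (a + ℓ i), x ∈ U i) :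
    ∑ i ∈ S, ℓ i ≤ 2 * π := by
  classical
  let I : ι → ℝ → ℝ := fun i => (U i).indicator fun _ => 1
  have hint : ∀ i ∈ S, ∀ a b : ℝ, IntervalIntegrable (I i) volume a b := fun i hi a b =>
    ⟨(integrableOn_const (by simp)).indicator (hU i hi).measurableSet,
      (integrableOn_const (by simp)).indicator (hU i hi).measurableSet⟩
  have hnn : ∀ i x, 0 ≤ I i x := fun i x => Set.indicator_nonneg (fun _ _ => zero_le_one) x
  have h1 : ∀ i ∈ S, ℓ i ≤ ∫ x in (0 : ℝ)..0 + 2 * π, I i x := by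
    intro i hi
    obtain ⟨l0, l1, a, ha⟩ := hℓ i hi
    have hp : Function.Periodic (I i) (2 * π) := fun x => by
      simp only [I, Set.indicator_apply, hper i hi]
    rw [hp.intervalIntegral_add_eq 0 a]
    calc ℓ i = ∫ _ in a..a + ℓ i, (1 : ℝ) := by simp
      _ ≤ ∫ x in a..a + ℓ i, I i x :=
        intervalIntegral.integral_mono_on_of_le_Ioo (by linarith) (by simp) (hint i hi _ _)
          fun x hx => by simp [I, ha x hx]
      _ ≤ _ := intervalIntegral.integral_mono_interval le_rfl (by linarith) (by linarith)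
          (Filter.Eventually.of_forall fun x => hnn i x) (hint i hi _ _)
  have h2 : ∑ i ∈ S, ∫ x in (0 : ℝ)..0 + 2 * π, I i x ≤ 2 * π := by
    rw [← intervalIntegral.integral_finsetSum fun i hi => hint i hi _ _]
    calc _ ≤ ∫ _ in (0 : ℝ)..0 + 2 * π, (1 : ℝ) := by
          refine intervalIntegral.integral_mono_on (by linarith [pi_pos]) ?_ (by simp) fun x _ => ?_
          · have := IntervalIntegrable.sum S fun i hi => hint i hi 0 (0 + 2 * π)
            rwa [Finset.sum_fn] at this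
          · by_cases hx : ∃ i ∈ S, x ∈ U i
            · obtain ⟨i, hi, hxi⟩ := hx
              rw [Finset.sum_eq_single_of_mem i hi]
              · simp [I, hxi]
              · intro j hj hji
                simp [I, hdisj i hi j hj hji.symm x hxi]
            · push Not at hx
              rw [Finset.sum_eq_zero fun i hi => by simp [I, hx i hi]]
              exact zero_le_one
      _ = 2 * π := by simp
  exact (Finset.sum_le_sum h1).trans h2

theorem exists_polar (a b : ℝ) (h : ¬ (a = 0 ∧ b = 0)) :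
    ∃ r lam : ℝ, 0 < r ∧ a = r * cos lam ∧ b = r * sin lam := by
  refine ⟨‖(⟨a, b⟩ : ℂ)‖, Complex.arg ⟨a, b⟩, norm_pos_iff.2 fun h0 => h ?_,
    (Complex.norm_mul_cos_arg ⟨a, b⟩).symm, (Complex.norm_mul_sin_arg ⟨a, b⟩).symm⟩
  simpa [Complex.ext_iff] using h0

theorem sum_ext_le {ι : Type} (S : Finset ι) {n : E3} (hn : n ≠ 0) (A L R : ι → E3)
    (hL : ∀ i ∈ S, ⟪n, L i⟫ = 0 ∧ L i ≠ 0) (hR : ∀ i ∈ S, ⟪n, R i⟫ = 0 ∧ R i ≠ 0)
    (hc : ∀ i ∈ S, ∀ j ∈ S, i ≠ j →
      A j ≠ A i ∧ ∃ s t : ℝ, 0 ≤ s ∧ 0 ≤ t ∧ A j - A i = s • L i + t • R i) :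
    ∑ i ∈ S, (π - angle (L i) (R i)) ≤ 2 * π := by
  rcases S.eq_empty_or_nonempty with rfl | ⟨i0, hi0⟩
  · simp [pi_pos.le]
  have hn' : 0 < ‖n‖ := norm_pos_iff.2 hn
  have hf' : 0 < ‖L i0‖ := norm_pos_iff.2 (hL i0 hi0).2
  set m := ‖n‖⁻¹ • n with hm
  set f := ‖L i0‖⁻¹ • L i0 with hf
  have mm : ⟪m, m⟫ = 1 := ip_of_norm (by rw [hm, norm_smul]; simp [hn'.ne'])
  have ff : ⟪f, f⟫ = 1 := ip_of_norm (by rw [hf, norm_smul]; simp [hf'.ne'])
  have hmx : ∀ x, ⟪n, x⟫ = 0 → ⟪m, x⟫ = 0 := fun x hx => by rw [hm, inner_smul_left, hx]; simp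
  have mf : ⟪m, f⟫ = 0 := by rw [hf, inner_smul_right, hmx _ (hL i0 hi0).1]; simp
  have hip : ∀ x y, ⟪n, x⟫ = 0 → ⟪n, y⟫ = 0 →
      ⟪x, y⟫ = ⟪f, x⟫ * ⟪f, y⟫ + det3 m f x * det3 m f y := by
    intro x y hx hy
    rw [det3_mul_det3, mm, ff, mf, real_inner_comm m f, mf, real_inner_comm m x, hmx x hx, hmx y hy,
      real_inner_comm f x]
    ring
  have hpol : ∀ x, ⟪n, x⟫ = 0 → x ≠ 0 →
      ∃ lam : ℝ, ⟪f, x⟫ = ‖x‖ * cos lam ∧ det3 m f x = ‖x‖ * sin lam := by
    intro x hx hx0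
    have h1 := hip x x hx hx
    obtain ⟨r, lam, hr, e1, e2⟩ := exists_polar ⟪f, x⟫ (det3 m f x) fun ⟨a, b⟩ => by
      rw [a, b] at h1
      exact hx0 (by simpa using h1)
    have : ‖x‖ = r := by
      rw [real_inner_self_eq_norm_sq, e1, e2] at h1
      have h2 : ‖x‖ ^ 2 = r ^ 2 := by nlinarith [sin_sq_add_cos_sq lam]
      exact (pow_left_inj₀ (norm_nonneg _) hr.le two_ne_zero).1 h2
    exact ⟨lam, this ▸ e1, this ▸ e2⟩
  let u : ℝ → E3 → ℝ := fun φ x => cos φ * ⟪f, x⟫ + sin φ * det3 m f x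
  have hu : ∀ φ x y (s t : ℝ), u φ (s • x + t • y) = s * u φ x + t * u φ y := by
    intro φ x y s t
    simp only [u, inner_add_right, inner_smul_right, det3_comb]; ring
  refine arcs_sum_le S (fun i => {φ | u φ (L i) < 0 ∧ u φ (R i) < 0}) (fun i _ => ?_)
    (fun i _ x => ?_) (fun i hi j hj hij φ h1 h2 => ?_) _ (fun i hi => ?_)
  · have hcu : ∀ x, Continuous fun φ => u φ x := fun x => by simp only [u]; fun_prop
    exact (isOpen_lt (hcu (L i)) continuous_const).inter (isOpen_lt (hcu (R i)) continuous_const)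
  · simp only [Set.mem_ofPred_eq, u, cos_add_two_pi, sin_add_two_pi]
  · have key : ∀ i ∈ S, ∀ j ∈ S, i ≠ j → u φ (L i) < 0 → u φ (R i) < 0 → u φ (A j - A i) < 0 := by
      intro i hi j hj hij a b
      obtain ⟨hne, s, t, hs, ht, e⟩ := hc i hi j hj hij
      rw [e, hu]
      rcases hs.eq_or_lt with rfl | hs'
      · rcases ht.eq_or_lt with rfl | ht'
        · exact absurd (sub_eq_zero.1 (by simpa using e)) hne
        · nlinarith
      · nlinarith
    have a := key i hi j hj hij h1.1 h1.2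
    have b := key j hj i hi hij.symm h2.1 h2.2
    have : u φ (A i - A j) = -u φ (A j - A i) := by
      simp only [u, inner_sub_right, det3_sub3]; ring
    linarith
  · have w0 := angle_nonneg (L i) (R i)
    have w1 := angle_le_pi (L i) (R i)
    refine ⟨by linarith, by linarith [pi_pos], ?_⟩
    obtain ⟨lam, l1, l2⟩ := hpol _ (hL i hi).1 (hL i hi).2
    obtain ⟨rho, r1, r2⟩ := hpol _ (hR i hi).1 (hR i hi).2
    have nL : 0 < ‖L i‖ := norm_pos_iff.2 (hL i hi).2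
    have nR : 0 < ‖R i‖ := norm_pos_iff.2 (hR i hi).2
    have uL : ∀ φ, u φ (L i) = ‖L i‖ * cos (φ - lam) := fun φ => by
      simp only [u, l1, l2, cos_sub]; ring
    have uR : ∀ φ, u φ (R i) = ‖R i‖ * cos (φ - rho) := fun φ => by
      simp only [u, r1, r2, cos_sub]; ring
    have hcos : cos (angle (L i) (R i)) = cos (rho - lam) := by
      rw [cos_angle, hip _ _ (hL i hi).1 (hR i hi).1, l1, l2, r1, r2, cos_sub]
      field_simp
    set ω := angle (L i) (R i)
    obtain ⟨k, hk | hk⟩ := cos_eq_cos_iff.1 hcos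
    · refine ⟨lam + ω + π / 2, fun φ hφ => ⟨?_, ?_⟩⟩
      · rw [uL]
        exact mul_neg_of_pos_of_neg nL
          (cos_neg_of_pi_div_two_lt_of_lt (by linarith [hφ.1]) (by linarith [hφ.2]))
      · rw [uR, show φ - rho = (φ - lam - ω) - (k : ℝ) * (2 * π) by linarith, cos_sub_int_mul_two_pi]
        exact mul_neg_of_pos_of_neg nR
          (cos_neg_of_pi_div_two_lt_of_lt (by linarith [hφ.1]) (by linarith [hφ.2]))
    · refine ⟨lam + π / 2, fun φ hφ => ⟨?_, ?_⟩⟩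
      · rw [uL]
        exact mul_neg_of_pos_of_neg nL
          (cos_neg_of_pi_div_two_lt_of_lt (by linarith [hφ.1]) (by linarith [hφ.2]))
      · rw [uR, show φ - rho = (φ - lam + ω) - (k : ℝ) * (2 * π) by linarith, cos_sub_int_mul_two_pi]
        exact mul_neg_of_pos_of_neg nR
          (cos_neg_of_pi_div_two_lt_of_lt (by linarith [hφ.1]) (by linarith [hφ.2]))

end Pool.Agent.Lib.MP_2b4858_co
end

-- part Pool.Agent.Lib.MP_2b4858_co.Cycle
section

set_option autoImplicit false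

namespace Pool.Agent.Lib.MP_2b4858_co

open scoped RealInnerProductSpace
open InnerProductGeometry Real

variable {V : Finset E3} {σ : ℝ} {w p q : E3}

theorem angle_sum_lt (hN : NonFlat V) (hσ : σ ≠ 0) (hw : Vert V w) (e : ℕ → E3) {k : ℕ}
    (hk : 0 < k) (hd : ∀ i, Dart V σ w (e i) (e (i + 1))) (hper : e k = e 0)
    (hinj : ∀ i < k, ∀ j < k, e i = e j → i = j) :
    ∑ i ∈ Finset.range k, angle (e i) (e (i + 1)) < 2 * π := by
  obtain ⟨μ, hμ⟩ := hw.pointed
  have he0 : ∀ i, e i ≠ 0 := fun i h0 => by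
    have := (hd i).np
    rw [h0] at this; simp at this
  have hm : ∀ i, 0 < ⟪μ, e i⟫ := fun i => by
    obtain ⟨t, ht, hx⟩ := (hd i).cp
    have := hμ _ hx (by simp [ht.ne', he0 i])
    rw [add_sub_cancel_left, inner_smul_right] at this
    exact (mul_pos_iff_of_pos_left ht).1 this
  have hμ0 : μ ≠ 0 := fun h0 => by
    have := hm 0
    rw [h0, inner_zero_left] at this; exact lt_irrefl _ this
  set A : ℕ → E3 := fun i => ⟪μ, e i⟫⁻¹ • e i with hA
  have hAe : ∀ i, e i = ⟪μ, e i⟫ • A i := fun i => by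
    simp only [hA, smul_smul, mul_inv_cancel₀ (hm i).ne', one_smul]
  have hmA : ∀ i, ⟪μ, A i⟫ = 1 := fun i => by
    simp only [hA, inner_smul_right, inv_mul_cancel₀ (hm i).ne']
  have hA0 : ∀ i, A i ≠ 0 := fun i h0 => by
    have := hmA i
    rw [h0] at this; simp at this
  have hAinj : ∀ i j, A i = A j → e i = e j := fun i j h => by
    refine unit_eq_of_smul (hd i).np (hd j).np (s := ⟪μ, e i⟫ * ⟪μ, e j⟫⁻¹)
      (mul_pos (hm i) (inv_pos.2 (hm j))).le ?_
    rw [mul_smul]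
    conv_lhs => rw [hAe i, h]
  have hdet : ∀ i, 0 < σ * det3 (e i) (e (i + 1)) (e (i + 2)) := fun i =>
    (hd i).det_pos hN hσ (hd (i + 1))
  have hdetA : ∀ i, det3 (A i) (A (i + 1)) (A (i + 2)) ≠ 0 := fun i h0 => by
    have := hdet i
    rw [hAe i, hAe (i + 1), hAe (i + 2)] at this
    have e1 : ∀ a b c : ℝ, det3 (a • A i) (b • A (i + 1)) (c • A (i + 2))
        = a * b * c * det3 (A i) (A (i + 1)) (A (i + 2)) := fun a b c => by simp [det3]; ring
    rw [e1, h0] at this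
    simp at this
  have hL0 : ∀ i, A i - A (i + 1) ≠ 0 := fun i h0 => hdetA i (by rw [sub_eq_zero.1 h0]; simp)
  have hR0 : ∀ i, A (i + 2) - A (i + 1) ≠ 0 := fun i h0 => hdetA i (by rw [sub_eq_zero.1 h0]; simp)
  have hsum := sum_ext_le (Finset.range k) hμ0 (fun i => A (i + 1)) (fun i => A i - A (i + 1))
    (fun i => A (i + 2) - A (i + 1))
    (fun i _ => ⟨by rw [inner_sub_right, hmA, hmA, sub_self], hL0 i⟩)
    (fun i _ => ⟨by rw [inner_sub_right, hmA, hmA, sub_self], hR0 i⟩)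
    (fun i hi j hj hij => by
      refine ⟨fun h => hij (hinj i (Finset.mem_range.1 hi) j (Finset.mem_range.1 hj) ?_), ?_⟩
      · exact ((hd i).pred_unique hσ (hAinj _ _ h ▸ hd j)).symm
      · have hD : det3 (e i) (e (i + 1)) (e (i + 2)) ≠ 0 := right_ne_zero_of_mul (hdet i).ne'
        have hc := cramer hD (e (j + 1))
        set α := det3 (e (j + 1)) (e (i + 1)) (e (i + 2)) / det3 (e i) (e (i + 1)) (e (i + 2))
        set β := det3 (e i) (e (j + 1)) (e (i + 2)) / det3 (e i) (e (i + 1)) (e (i + 2))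
        set γ := det3 (e i) (e (i + 1)) (e (j + 1)) / det3 (e i) (e (i + 1)) (e (i + 2))
        have hα : 0 ≤ α := by
          have := (hd (i + 1)).sup' (hd (j + 1)).cp
          rw [det3_cyc] at this
          have e1 : α = σ * det3 (e (j + 1)) (e (i + 1)) (e (i + 2))
              / (σ * det3 (e i) (e (i + 1)) (e (i + 2))) := by rw [mul_div_mul_left _ _ hσ]
          rw [e1]; exact div_nonneg this (hdet i).le
        have hγ : 0 ≤ γ := by
          have := (hd i).sup' (hd (j + 1)).cp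
          have e1 : γ = σ * det3 (e i) (e (i + 1)) (e (j + 1))
              / (σ * det3 (e i) (e (i + 1)) (e (i + 2))) := by rw [mul_div_mul_left _ _ hσ]
          rw [e1]; exact div_nonneg this (hdet i).le
        have hmj := hm (j + 1)
        have hsum1 : ⟪μ, e (j + 1)⟫ = α * ⟪μ, e i⟫ + β * ⟪μ, e (i + 1)⟫ + γ * ⟪μ, e (i + 2)⟫ := by
          conv_lhs => rw [hc]
          simp only [inner_add_right, inner_smul_right]
        refine ⟨α * ⟪μ, e i⟫ / ⟪μ, e (j + 1)⟫, γ * ⟪μ, e (i + 2)⟫ / ⟪μ, e (j + 1)⟫,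
          div_nonneg (mul_nonneg hα (hm _).le) hmj.le,
          div_nonneg (mul_nonneg hγ (hm _).le) hmj.le, ?_⟩
        have e2 : ⟪μ, e (j + 1)⟫ • A (j + 1) = (α * ⟪μ, e i⟫) • A i
            + (β * ⟪μ, e (i + 1)⟫) • A (i + 1) + (γ * ⟪μ, e (i + 2)⟫) • A (i + 2) := by
          rw [← hAe, mul_smul, mul_smul, mul_smul, ← hAe, ← hAe, ← hAe]; exact hc
        refine smul_right_injective _ hmj.ne' ?_
        simp only [smul_add, smul_sub, smul_smul, e2, mul_div_cancel₀ _ hmj.ne']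
        rw [hsum1]; module)
  let a : ℕ → ℝ := fun i => angle (A i) (A i - A (i + 1))
  let b : ℕ → ℝ := fun i => angle (A (i + 1)) (A (i + 1) - A i)
  have htri : ∀ i, angle (e i) (e (i + 1)) + a i + b i = π := fun i => by
    have := angle_add_angle_sub_add_angle_sub_eq_pi (A i) (hA0 (i + 1))
    rw [← this]
    simp only [a, b, hA, angle_smul_left_of_pos _ _ (inv_pos.2 (hm _)),
      angle_smul_right_of_pos _ _ (inv_pos.2 (hm _))]
  have hlt : ∀ i, angle (A i - A (i + 1)) (A (i + 2) - A (i + 1)) < b i + a (i + 1) := fun i => by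
    have e1 : b i = angle (A i - A (i + 1)) (-A (i + 1)) := by
      simp only [b]
      rw [angle_comm, ← angle_neg_neg, neg_sub]
    have e2 : a (i + 1) = angle (-A (i + 1)) (A (i + 2) - A (i + 1)) := by
      simp only [a]
      rw [← angle_neg_neg, neg_sub]
    rw [e1, e2]
    refine lt_of_le_of_ne (angle_le_angle_add_angle _ _ _) fun h => ?_
    rcases (angle_eq_angle_add_angle_iff (neg_ne_zero.2 (hA0 _))).1 h with h | h
    · obtain ⟨_, r, _, hr⟩ := angle_eq_pi_iff.1 h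
      refine hdetA i ?_
      rw [sub_eq_iff_eq_add.1 hr]
      simp [det3]; ring
    · obtain ⟨s, t, hst⟩ := Submodule.mem_span_pair.1 h
      have := congrArg (fun x => ⟪μ, x⟫) hst
      simp only [NNReal.smul_def, inner_add_right, inner_smul_right, inner_sub_right, hmA,
        inner_neg_right] at this
      norm_num at this
  have hper1 : e (k + 1) = e 1 := (hd 0).succ_unique hσ (hper ▸ hd k)
  have hak : a k = a 0 := by simp only [a, hA, hper, hper1]
  have hshift : ∑ i ∈ Finset.range k, a (i + 1) = ∑ i ∈ Finset.range k, a i := by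
    have h1 := Finset.sum_range_succ a k
    have h2 := Finset.sum_range_succ' a k
    linarith
  have h3 : ∑ i ∈ Finset.range k, (π - (b i + a (i + 1)))
      < ∑ i ∈ Finset.range k, (π - angle (A i - A (i + 1)) (A (i + 2) - A (i + 1))) :=
    Finset.sum_lt_sum_of_nonempty ⟨0, Finset.mem_range.2 hk⟩ fun i _ => by linarith [hlt i]
  have h4 : ∑ i ∈ Finset.range k, angle (e i) (e (i + 1))
      = ∑ i ∈ Finset.range k, (π - (b i + a i)) :=
    Finset.sum_congr rfl fun i _ => by linarith [htri i]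
  simp only [Finset.sum_sub_distrib, Finset.sum_add_distrib] at h3 h4 hsum
  linarith

/-- The number of sixty-degree units in an angle with cosine `± 1/2`. -/
def Units (q r : E3) (m : ℕ) : Prop := (⟪q, r⟫ = 1 / 2 ∧ m = 1) ∨ (⟪q, r⟫ = -(1 / 2) ∧ m = 2)

theorem Units.angle {r : E3} {m : ℕ} (h : Units q r m) (hq : ⟪q, q⟫ = 1) (hr : ⟪r, r⟫ = 1) :
    angle q r = m * (π / 3) := by
  rcases h with ⟨h, rfl⟩ | ⟨h, rfl⟩
  · rw [angle_sixty hq hr h]; simp
  · rw [angle_onetwenty hq hr h]; simp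

inductive Chain (V : Finset E3) (σ : ℝ) (w p : E3) : E3 → ℕ → Prop
  | refl : Chain V σ w p p 0
  | step (q r : E3) (m M : ℕ) (hne : q ≠ p) (hd : Dart V σ w q r) (hm : Units q r m)
      (h : Chain V σ w p r M) : Chain V σ w p q (m + M)

theorem Chain.angle_le (hp : p ≠ 0) {M : ℕ} (h : Chain V σ w p q M) : angle q p ≤ M * (π / 3) := by
  induction h with
  | refl => simp [angle_self hp]
  | step q r m M hne hd hm h ih =>
    have h1 := angle_le_angle_add_angle q r p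
    rw [hm.angle hd.np hd.nq] at h1
    push_cast; linarith

theorem Chain.inv (hσ : σ ≠ 0) {M : ℕ} (h : Chain V σ w p q M) (hne : q ≠ p) {r : E3}
    (hd : Dart V σ w q r) : ∃ m M', M = m + M' ∧ Units q r m ∧ Chain V σ w p r M' := by
  cases h with
  | refl => exact absurd rfl hne
  | step q r' m M hne hd' hm h =>
    obtain rfl := hd.succ_unique hσ hd'
    exact ⟨m, M, rfl, hm, h⟩

theorem Chain.inv' {M : ℕ} (h : Chain V σ w p q M) (hne : q ≠ p) :
    ∃ r m M', M = m + M' ∧ Dart V σ w q r ∧ Units q r m ∧ Chain V σ w p r M' := by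
  cases h with
  | refl => exact absurd rfl hne
  | step q r' m M hne hd' hm h => exact ⟨r', m, M, rfl, hd', hm, h⟩

theorem Chain.self {M : ℕ} (h : Chain V σ w p p M) : M = 0 := by
  cases h with
  | refl => rfl
  | step q r' m M hne hd' hm h => exact absurd rfl hne

theorem Chain.zero (h : Chain V σ w p q 0) : q = p := by
  by_contra hne
  obtain ⟨r, m, M, e, _, hm, _⟩ := h.inv' hne
  rcases hm with ⟨_, rfl⟩ | ⟨_, rfl⟩ <;> omega

theorem exists_chain (hN : NonFlat V) (hσ : σ ≠ 0) (hw : Vert V w) (h : Dart V σ w p q)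
    (hall : ∀ p' q', Dart V σ w p' q' → p' ≠ p → ⟪p', q'⟫ = 1 / 2 ∨ ⟪p', q'⟫ = -(1 / 2)) :
    ∃ M, Chain V σ w p q M ∧ angle p q + M * (π / 3) < 2 * π := by
  classical
  let X : Set E3 := {p' | ∃ q', Dart V σ w p' q'}
  have hfin : X.Finite := by
    refine ((V.finite_toSet).image fun v => ‖v - w‖⁻¹ • (v - w)).subset ?_
    rintro p' ⟨q', hd⟩
    obtain ⟨t, ht, hv⟩ := hd.vp
    refine ⟨_, hv, ?_⟩
    simp only [add_sub_cancel_left, norm_smul, norm_of_ip hd.np, mul_one, Real.norm_eq_abs,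
      abs_of_pos ht, smul_smul, inv_mul_cancel₀ ht.ne', one_smul]
  have : Finite X := hfin.to_subtype
  have hex : ∀ x : X, ∃ y : X, Dart V σ w x y := fun ⟨x, y, hxy⟩ =>
    ⟨⟨y, hxy.exists_succ hN hσ hw⟩, hxy⟩
  choose f hf using hex
  have hinj : Function.Injective f := fun x y hxy =>
    Subtype.ext ((hf y).pred_unique hσ (hxy ▸ hf x))
  let x0 : X := ⟨p, q, h⟩
  have hpp := hinj.mem_periodicPts x0
  set k := Function.minimalPeriod f x0 with hk
  have hk0 : 0 < k := Function.minimalPeriod_pos_of_mem_periodicPts hpp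
  let e : ℕ → E3 := fun i => (f^[i] x0 : X)
  have hd : ∀ i, Dart V σ w (e i) (e (i + 1)) := fun i => by
    simp only [e, Function.iterate_succ_apply']; exact hf _
  have hper : e k = e 0 := by simp only [e, hk, Function.iterate_minimalPeriod]; rfl
  have hinj' : ∀ i < k, ∀ j < k, e i = e j → i = j := fun i hi j hj hij =>
    Function.iterate_injOn_Iio_minimalPeriod hi hj (Subtype.ext hij)
  have hsum := angle_sum_lt hN hσ hw e hk0 hd hper hinj'
  have he0 : e 0 = p := rfl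
  have he1 : e 1 = q := h.succ_unique hσ (hd 0)
  have key : ∀ d j, j + d = k → 0 < j → ∃ M, Chain V σ w p (e j) M ∧
      M * (π / 3) = ∑ i ∈ Finset.Ico j k, angle (e i) (e (i + 1)) := by
    intro d
    induction d with
    | zero =>
      intro j hj _
      obtain rfl : j = k := by omega
      exact ⟨0, by rw [hper, he0]; exact Chain.refl, by simp⟩
    | succ d ih =>
      intro j hj hj0
      obtain ⟨M, hM, hs⟩ := ih (j + 1) (by omega) (by omega)
      have hne : e j ≠ p := fun h0 => by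
        have := hinj' j (by omega) 0 hk0 h0
        omega
      obtain ⟨m, hm⟩ : ∃ m, Units (e j) (e (j + 1)) m := by
        rcases hall _ _ (hd j) hne with h1 | h1
        · exact ⟨1, Or.inl ⟨h1, rfl⟩⟩
        · exact ⟨2, Or.inr ⟨h1, rfl⟩⟩
      refine ⟨m + M, Chain.step _ _ m M hne (hd j) hm hM, ?_⟩
      rw [Finset.sum_eq_sum_Ico_succ_bot (by omega), hm.angle (hd j).np (hd j).nq, ← hs]
      push_cast; ring
  obtain ⟨M, hM, hs⟩ := key (k - 1) 1 (by omega) one_pos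
  refine ⟨M, he1 ▸ hM, ?_⟩
  rw [Finset.range_eq_Ico, Finset.sum_eq_sum_Ico_succ_bot hk0, he0, zero_add, he1, ← hs] at hsum
  exact hsum

end Pool.Agent.Lib.MP_2b4858_co
end
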