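import Mathlib

set_option autoImplicit false

namespace Pool.Agent.Lib.MP_2b4858_co

/-- Euclidean three-space. -/
abbrev E3 : Type := EuclideanSpace ℝ (Fin 3)

/-- A (compact, three-dimensional) convex polyhedron: the convex hull of finitely many points,
with nonempty interior. -/
def IsConvexPolyhedron (Q : Set E3) : Prop :=
  (∃ V : Finset E3, Q = convexHull ℝ (V : Set E3)) ∧ (interior Q).Nonempty

/-- `F` is a (two-dimensional) face of `Q`: the intersection of `Q` with a supporting plane,
not contained in a line. -/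
def IsFace (Q F : Set E3) : Prop :=
  ∃ (n : E3) (c : ℝ), n ≠ 0 ∧ (∀ x ∈ Q, inner ℝ n x ≤ c) ∧ F = {x ∈ Q | inner ℝ n x = c} ∧
    ¬ Collinear ℝ F

/-- The point `o + i u + j v` of the lattice with origin `o` and basis `u, v`. -/
noncomputable def latticePt (o u v : E3) (i j : ℤ) : E3 := o + (i : ℝ) • u + (j : ℝ) • v

/-- The closed lattice triangle with vertices `(i, j)`, `(i + 1, j)`, `(i, j + 1)`. -/
def upTriangle (o u v : E3) (i j : ℤ) : Set E3 :=
  convexHull ℝ {latticePt o u v i j, latticePt o u v (i + 1) j, latticePt o u v i (j + 1)}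

/-- The closed lattice triangle with vertices `(i + 1, j)`, `(i, j + 1)`, `(i + 1, j + 1)`. -/
def downTriangle (o u v : E3) (i j : ℤ) : Set E3 :=
  convexHull ℝ
    {latticePt o u v (i + 1) j, latticePt o u v i (j + 1), latticePt o u v (i + 1) (j + 1)}

/-- A convex polyiamond: a convex set that is a finite union of closed triangles of a unit
triangular lattice (`‖u‖ = ‖v‖ = ‖u - v‖ = 1`) in a plane of three-space. -/
def IsConvexPolyiamond (F : Set E3) : Prop :=
  Convex ℝ F ∧ ∃ o u v : E3, ‖u‖ = 1 ∧ ‖v‖ = 1 ∧ ‖u - v‖ = 1 ∧ ∃ S T : Finset (ℤ × ℤ),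
    F = (⋃ p ∈ S, upTriangle o u v p.1 p.2) ∪ (⋃ p ∈ T, downTriangle o u v p.1 p.2)

/-- `P` can be domed: it is a face of a convex polyhedron all of whose other faces are convex
polyiamonds. -/
def CanBeDomed (P : Set E3) : Prop :=
  ∃ Q : Set E3, IsConvexPolyhedron Q ∧ IsFace Q P ∧
    ∀ F : Set E3, IsFace Q F → F ≠ P → IsConvexPolyiamond F

end Pool.Agent.Lib.MP_2b4858_co
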