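import Pool.Agent.Lib.MP_2b4858_co.Cycle

set_option autoImplicit false

namespace Pool.Agent.Lib.MP_2b4858_co

open scoped RealInnerProductSpace

noncomputable def dir (u v : E3) : Fin 6 → E3 := ![u, v, v - u, -u, -v, u - v]

theorem dir_add3 (u v : E3) (i : Fin 6) : dir u v (i + 3) = -dir u v i := by
  fin_cases i <;> simp [dir]

theorem dir_mid (u v : E3) (i : Fin 6) : dir u v (i + 1) = dir u v i + dir u v (i + 1 + 1) := by
  fin_cases i <;> simp [dir] <;> abel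

theorem dir_ip {u v : E3} (hu : ⟪u, u⟫ = 1) (hv : ⟪v, v⟫ = 1) (huv : ⟪u, v⟫ = 1 / 2) (i : Fin 6) :
    ⟪dir u v i, dir u v i⟫ = 1 ∧ ⟪dir u v i, dir u v (i + 1)⟫ = 1 / 2 ∧
      ⟪dir u v i, dir u v (i + 1 + 1)⟫ = -(1 / 2) := by
  have hvu : ⟪v, u⟫ = 1 / 2 := by rw [real_inner_comm]; exact huv
  fin_cases i <;>
    simp only [dir, Fin.reduceFinMk, Fin.reduceAdd, Matrix.cons_val, Fin.zero_eta, Fin.mk_one,
      inner_sub_left, inner_sub_right, inner_neg_left, inner_neg_right, hu, hv, huv, hvu] <;>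
    norm_num

theorem six_cases : ∀ M : Fin 6 → Bool, (∀ i, ¬ (M i = true ∧ M (i + 3) = true)) →
    (∃ i, M i = true ∧ M (i + 1) = true) →
    ∃ i, M i = true ∧ M (i + 1) = true ∧ ∀ j, M j = true ∧ M (j + 1) = true → j = i ∨ j = i + 1 := by
  decide

theorem tri_cone {a b c x : E3} (hx : x ∈ convexHull ℝ ({a, a + b, a + c} : Set E3)) :
    ∃ s t : ℝ, 0 ≤ s ∧ 0 ≤ t ∧ x - a = s • b + t • c := by
  refine convexHull_min (t := {x | ∃ s t : ℝ, 0 ≤ s ∧ 0 ≤ t ∧ x - a = s • b + t • c}) ?_ ?_ hx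
  · rintro y (rfl | rfl | rfl)
    · exact ⟨0, 0, le_rfl, le_rfl, by simp⟩
    · exact ⟨1, 0, zero_le_one, le_rfl, by simp⟩
    · exact ⟨0, 1, le_rfl, zero_le_one, by simp⟩
  · rintro x ⟨s, t, hs, ht, e⟩ y ⟨s', t', hs', ht', e'⟩ α β ha hb hab
    refine ⟨α * s + β * s', α * t + β * t', by positivity, by positivity, ?_⟩
    have : α • x + β • y - a = α • (x - a) + β • (y - a) := by
      have : a = α • a + β • a := by rw [← add_smul, hab, one_smul]
      conv_lhs => rw [this]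
      module
    rw [this, e, e']; module

def IsTri (o u v : E3) (T : Set E3) : Prop :=
  ∃ i j : ℤ, T = upTriangle o u v i j ∨ T = downTriangle o u v i j

theorem IsTri.closed {o u v : E3} {T : Set E3} (h : IsTri o u v T) : IsClosed T := by
  obtain ⟨i, j, rfl | rfl⟩ := h <;>
    exact ((Set.toFinite _).isCompact_convexHull ℝ).isClosed

theorem IsTri.at_vertex {o u v w : E3} {T : Set E3} (h : IsTri o u v T)
    (hw : w ∈ T.extremePoints ℝ) :
    ∃ k : Fin 6, T = convexHull ℝ {w, w + dir u v k, w + dir u v (k + 1)} := by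
  have perm1 : ∀ a b c a' b' c' : E3, b = a' → c = b' → a = c' →
      convexHull ℝ ({a, b, c} : Set E3) = convexHull ℝ {a', b', c'} := by
    rintro a b c _ _ _ rfl rfl rfl
    congr 1; ext x; simp; tauto
  have perm0 : ∀ a b c a' b' c' : E3, a = a' → b = b' → c = c' →
      convexHull ℝ ({a, b, c} : Set E3) = convexHull ℝ {a', b', c'} := by
    rintro a b c _ _ _ rfl rfl rfl; rfl
  have perm2 : ∀ a b c a' b' c' : E3, c = a' → a = b' → b = c' →
      convexHull ℝ ({a, b, c} : Set E3) = convexHull ℝ {a', b', c'} := by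
    rintro a b c _ _ _ rfl rfl rfl
    congr 1; ext x; simp; tauto
  have perm3 : ∀ a b c a' b' c' : E3, a = a' → c = b' → b = c' →
      convexHull ℝ ({a, b, c} : Set E3) = convexHull ℝ {a', b', c'} := by
    rintro a b c _ _ _ rfl rfl rfl
    congr 1; ext x; simp; tauto
  have perm4 : ∀ a b c a' b' c' : E3, b = a' → a = b' → c = c' →
      convexHull ℝ ({a, b, c} : Set E3) = convexHull ℝ {a', b', c'} := by
    rintro a b c _ _ _ rfl rfl rfl
    congr 1; ext x; simp; tauto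
  have perm5 : ∀ a b c a' b' c' : E3, c = a' → b = b' → a = c' →
      convexHull ℝ ({a, b, c} : Set E3) = convexHull ℝ {a', b', c'} := by
    rintro a b c _ _ _ rfl rfl rfl
    congr 1; ext x; simp; tauto
  obtain ⟨i, j, rfl | rfl⟩ := h
  · rcases extremePoints_convexHull_subset hw with rfl | rfl | rfl
    · exact ⟨0, perm0 _ _ _ _ _ _ rfl (by simp [dir, latticePt]; module)
        (by simp [dir, latticePt]; module)⟩
    · exact ⟨2, perm1 _ _ _ _ _ _ rfl (by simp [dir, latticePt]; module)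
        (by simp [dir, latticePt]; module)⟩
    · exact ⟨4, perm2 _ _ _ _ _ _ rfl (by simp [dir, latticePt]; module)
        (by simp [dir, latticePt]; module)⟩
  · rcases extremePoints_convexHull_subset hw with rfl | rfl | rfl
    · exact ⟨1, perm3 _ _ _ _ _ _ rfl (by simp [dir, latticePt]; module)
        (by simp [dir, latticePt]; module)⟩
    · exact ⟨5, perm4 _ _ _ _ _ _ rfl (by simp [dir, latticePt]; module)
        (by simp [dir, latticePt]; module)⟩
    · exact ⟨3, perm5 _ _ _ _ _ _ rfl (by simp [dir, latticePt]; module)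
        (by simp [dir, latticePt]; module)⟩

theorem polyiamond_corner {F : Set E3} (hF : IsConvexPolyiamond F) {w : E3}
    (hw : w ∈ F.extremePoints ℝ) :
    ∃ r r' : E3, ⟪r, r⟫ = 1 ∧ ⟪r', r'⟫ = 1 ∧ (⟪r, r'⟫ = 1 / 2 ∨ ⟪r, r'⟫ = -(1 / 2)) ∧
      w + r ∈ F ∧ w + r' ∈ F ∧ ∀ x ∈ F, ∃ s t : ℝ, 0 ≤ s ∧ 0 ≤ t ∧ x - w = s • r + t • r' := by
  classical
  obtain ⟨hconv, o, u, v, hu, hv, huv, S, T, hST⟩ := hF
  have uu := ip_of_norm hu
  have vv := ip_of_norm hv
  have uv : ⟪u, v⟫ = 1 / 2 := by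
    have := ip_of_norm huv
    rw [inner_sub_left, inner_sub_right, inner_sub_right, uu, vv, real_inner_comm u v] at this
    linarith
  let 𝒯 : Set (Set E3) := ((fun p : ℤ × ℤ => upTriangle o u v p.1 p.2) '' S) ∪
    ((fun p : ℤ × ℤ => downTriangle o u v p.1 p.2) '' T)
  have hfin : 𝒯.Finite := (S.finite_toSet.image _).union (T.finite_toSet.image _)
  have htri : ∀ X ∈ 𝒯, IsTri o u v X := by
    rintro X (⟨p, _, rfl⟩ | ⟨p, _, rfl⟩)
    · exact ⟨p.1, p.2, Or.inl rfl⟩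
    · exact ⟨p.1, p.2, Or.inr rfl⟩
  have hmem : ∀ x, x ∈ F ↔ ∃ X ∈ 𝒯, x ∈ X := by
    intro x
    rw [hST]
    simp only [𝒯, Set.mem_union, Set.mem_iUnion, Set.mem_image, Finset.mem_coe, exists_prop]
    constructor
    · rintro (⟨p, hp, hx⟩ | ⟨p, hp, hx⟩)
      · exact ⟨_, Or.inl ⟨p, hp, rfl⟩, hx⟩
      · exact ⟨_, Or.inr ⟨p, hp, rfl⟩, hx⟩
    · rintro ⟨X, ⟨p, hp, rfl⟩ | ⟨p, hp, rfl⟩, hx⟩
      · exact Or.inl ⟨p, hp, hx⟩
      · exact Or.inr ⟨p, hp, hx⟩
  have hstep : ∀ x ∈ F, ∃ k : Fin 6, w + dir u v k ∈ F ∧ w + dir u v (k + 1) ∈ F ∧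
      ∃ s t : ℝ, 0 ≤ s ∧ 0 ≤ t ∧ x - w = s • dir u v k + t • dir u v (k + 1) := by
    intro x hx
    have hK : IsClosed (⋃ X ∈ {X ∈ 𝒯 | w ∉ X}, X) :=
      (hfin.subset (Set.sep_subset _ _)).isClosed_biUnion fun X hX => (htri X hX.1).closed
    have hwK : w ∈ (⋃ X ∈ {X ∈ 𝒯 | w ∉ X}, X)ᶜ := by
      simp only [Set.mem_compl_iff, Set.mem_iUnion, Set.mem_ofPred_eq, exists_prop]
      rintro ⟨X, ⟨_, h1⟩, h2⟩
      exact h1 h2
    have hcont : Continuous fun t : ℝ => w + t • (x - w) := by fun_prop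
    have hev : ∀ᶠ t in nhds (0 : ℝ), w + t • (x - w) ∈ (⋃ X ∈ {X ∈ 𝒯 | w ∉ X}, X)ᶜ :=
      (hK.isOpen_compl.preimage hcont).mem_nhds (by
        rw [Set.mem_preimage, zero_smul, add_zero]; exact hwK)
    have hev2 : ∀ᶠ t in nhdsWithin (0 : ℝ) (Set.Ioi 0), t ∈ Set.Ioo (0 : ℝ) 1 :=
      Ioo_mem_nhdsGT one_pos
    obtain ⟨t, ht1, ht2⟩ := ((hev.filter_mono nhdsWithin_le_nhds).and hev2).exists
    have hin : w + t • (x - w) ∈ F := by
      have := hconv hw.1 hx (a := 1 - t) (b := t) (by linarith [ht2.2]) ht2.1.le (by ring)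
      convert this using 1
      module
    obtain ⟨X, hX, hxX⟩ := (hmem _).1 hin
    have hwX : w ∈ X := by
      by_contra hn
      exact ht1 (Set.mem_biUnion (show X ∈ {X ∈ 𝒯 | w ∉ X} from ⟨hX, hn⟩) hxX)
    have hsub : X ⊆ F := fun y hy => (hmem y).2 ⟨X, hX, hy⟩
    obtain ⟨k, hk⟩ := (htri X hX).at_vertex
      (inter_extremePoints_subset_extremePoints_of_subset hsub ⟨hwX, hw⟩)
    refine ⟨k, hsub (hk ▸ subset_convexHull ℝ _ (by simp)),
      hsub (hk ▸ subset_convexHull ℝ _ (by simp)), ?_⟩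
    obtain ⟨a, b, ha, hb, e⟩ := tri_cone (hk ▸ hxX)
    rw [add_sub_cancel_left] at e
    have ht0 := ht2.1
    refine ⟨a / t, b / t, by positivity, by positivity, ?_⟩
    have : x - w = t⁻¹ • (t • (x - w)) := by rw [smul_smul, inv_mul_cancel₀ ht0.ne', one_smul]
    rw [this, e, smul_add, smul_smul, smul_smul, div_eq_inv_mul, div_eq_inv_mul]
  obtain ⟨i, hi1, hi2, hi3⟩ := six_cases (fun i => decide (w + dir u v i ∈ F))
    (fun i ⟨h1, h2⟩ => by
      simp only [decide_eq_true_eq] at h1 h2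
      rw [dir_add3] at h2
      have := (mem_extremePoints_iff_left.1 hw).2 _ h1 _ h2
        ⟨1 / 2, 1 / 2, by norm_num, by norm_num, by norm_num, by module⟩
      have h0 : dir u v i = 0 := by simpa using this
      have := (dir_ip uu vv uv i).1
      rw [h0] at this; simp at this)
    (by
      obtain ⟨k, h1, h2, _⟩ := hstep w hw.1
      exact ⟨k, by simpa using h1, by simpa using h2⟩)
  simp only [decide_eq_true_eq] at hi1 hi2 hi3
  by_cases h3 : w + dir u v (i + 1 + 1) ∈ F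
  · refine ⟨dir u v i, dir u v (i + 1 + 1), (dir_ip uu vv uv i).1, (dir_ip uu vv uv _).1,
      Or.inr (dir_ip uu vv uv i).2.2, hi1, h3, fun x hx => ?_⟩
    obtain ⟨k, h1, h2, s, t, hs, ht, e⟩ := hstep x hx
    rcases hi3 k ⟨h1, h2⟩ with rfl | rfl
    · exact ⟨s + t, t, by positivity, ht, by rw [e, dir_mid u v k]; module⟩
    · exact ⟨s, s + t, hs, by positivity, by
        rw [e]; nth_rewrite 1 [dir_mid u v i]; module⟩
  · refine ⟨dir u v i, dir u v (i + 1), (dir_ip uu vv uv i).1, (dir_ip uu vv uv _).1,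
      Or.inl (dir_ip uu vv uv i).2.1, hi1, hi2, fun x hx => ?_⟩
    obtain ⟨k, h1, h2, s, t, hs, ht, e⟩ := hstep x hx
    rcases hi3 k ⟨h1, h2⟩ with rfl | rfl
    · exact ⟨s, t, hs, ht, e⟩
    · exact absurd h2 h3

variable {V : Finset E3} {σ : ℝ} {w p q : E3}

theorem Dart.ip_of_polyiamond (hw : Vert V w) (h : Dart V σ w p q)
    (hF : IsConvexPolyiamond (face V w p q)) : ⟪p, q⟫ = 1 / 2 ∨ ⟪p, q⟫ = -(1 / 2) := by
  have hsub : face V w p q ⊆ hull V := fun x hx => hx.1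
  obtain ⟨r, r', hr, hr', hip, m1, m2, hc⟩ := polyiamond_corner hF
    (inter_extremePoints_subset_extremePoints_of_subset hsub ⟨⟨hw.mem, by simp⟩, hw⟩)
  have back : ∀ d : E3, (∃ t : ℝ, 0 < t ∧ w + t • d ∈ face V w p q) →
      ∃ s t : ℝ, 0 ≤ s ∧ 0 ≤ t ∧ d = s • r + t • r' := by
    rintro d ⟨τ, hτ, hm⟩
    obtain ⟨s, t, hs, ht, e⟩ := hc _ hm
    rw [add_sub_cancel_left] at e
    refine ⟨s / τ, t / τ, by positivity, by positivity, ?_⟩
    have : d = τ⁻¹ • (τ • d) := by rw [smul_smul, inv_mul_cancel₀ hτ.ne', one_smul]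
    rw [this, e, smul_add, smul_smul, smul_smul, div_eq_inv_mul, div_eq_inv_mul]
  rcases corner_unique h.ind h.np h.nq hr hr' (by simpa using h.cone _ m1.1 m1.2)
    (by simpa using h.cone _ m2.1 m2.2) (back p h.mem_face_p) (back q h.mem_face_q)
    with ⟨rfl, rfl⟩ | ⟨rfl, rfl⟩
  · exact hip
  · rw [real_inner_comm]; exact hip

end Pool.Agent.Lib.MP_2b4858_co
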