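import Pool.Agent.Lib.MP_2b4858_co.Cycle
import Pool.Agent.Lib.MP_2b4858_co.Lattice

-- part Pool.Agent.Lib.MP_2b4858_co.Local
section

set_option autoImplicit false

namespace Pool.Agent.Lib.MP_2b4858_co

open scoped RealInnerProductSpace
open InnerProductGeometry Real

structure Ctx (V : Finset E3) (n : E3) (c : ℝ) : Prop where
  nf : NonFlat V
  nn : ⟪n, n⟫ = 1
  up : ∀ x ∈ hull V, c ≤ ⟪n, x⟫
  ang : ∀ (σ : ℝ) (w p q : E3), σ ≠ 0 → Vert V w → Dart V σ w p q →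
    ¬ (⟪n, w⟫ = c ∧ ⟪n, p⟫ = 0 ∧ ⟪n, q⟫ = 0) → ⟪p, q⟫ = 1 / 2 ∨ ⟪p, q⟫ = -(1 / 2)

structure BD (V : Finset E3) (n : E3) (c σ : ℝ) (w a b : E3) : Prop where
  vert : Vert V w
  hw : ⟪n, w⟫ = c
  dart : Dart V σ w a b
  na : ⟪n, a⟫ = 0
  nb : ⟪n, b⟫ = 0

variable {V : Finset E3} {n : E3} {c σ : ℝ} {w a b : E3}

theorem BD.mirror (h : BD V n c σ w a b) : BD V n c (-σ) w b a :=
  ⟨h.vert, h.hw, h.dart.mirror, h.nb, h.na⟩

theorem sig_ne (hσ : σ * σ = 1) : σ ≠ 0 := by rintro rfl; simp at hσ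

theorem sig_neg (hσ : σ * σ = 1) : -σ * -σ = 1 := by linarith

theorem Ctx.n_ne (C : Ctx V n c) : n ≠ 0 := fun h => by
  have := C.nn
  rw [h] at this; simp at this

theorem BD.det_eq (C : Ctx V n c) (h : BD V n c σ w a b) (x : E3) :
    det3 a b x = det3 a b n * ⟪n, x⟫ := by
  obtain ⟨κ, _, hp⟩ := h.dart.ind.prop C.n_ne h.na h.nb
  rw [hp, hp n, C.nn, mul_one]

theorem BD.s_pos (C : Ctx V n c) (hσ : σ * σ = 1) (h : BD V n c σ w a b) :
    0 < σ * det3 a b n := by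
  obtain ⟨x, hx, hne⟩ := C.nf.det h.dart.ind w
  have h1 := h.dart.sup x hx
  have h2 := C.up x hx
  rw [h.det_eq C, inner_sub_right, h.hw] at h1 hne
  have h3 : 0 < ⟪n, x⟫ - c := lt_of_le_of_ne (by linarith) (right_ne_zero_of_mul hne).symm
  have h4 : σ * det3 a b n ≠ 0 := mul_ne_zero (sig_ne hσ) (left_ne_zero_of_mul hne)
  exact lt_of_le_of_ne (nonneg_of_mul_nonneg_left (by linarith) h3) h4.symm

theorem BD.s_sq (C : Ctx V n c) (hσ : σ * σ = 1) (h : BD V n c σ w a b) :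
    (σ * det3 a b n) ^ 2 + ⟪a, b⟫ ^ 2 = 1 := by
  have := det3_mul_det3 a b n a b n
  rw [h.dart.np, h.dart.nq, C.nn, h.na, h.nb, real_inner_comm n a, real_inner_comm n b, h.na, h.nb,
    real_inner_comm a b] at this
  nlinarith

theorem BD.up_pos (C : Ctx V n c) (hσ : σ * σ = 1) (h : BD V n c σ w a b) {e : E3}
    (hd : Dart V σ w b e) : 0 < ⟪n, e⟫ := by
  have h1 := h.dart.det_pos C.nf (sig_ne hσ) hd
  rw [h.det_eq C, ← mul_assoc] at h1
  exact (mul_pos_iff_of_pos_left (h.s_pos C hσ)).1 h1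

theorem BD.tilt (C : Ctx V n c) (hσ : σ * σ = 1) (h : BD V n c σ w a b) (e : E3) :
    (σ * det3 a b n) * (σ * det3 b e n) = ⟪a, b⟫ * ⟪b, e⟫ - ⟪e, a⟫ := by
  have := det3_mul_det3 b e n a b n
  rw [h.dart.nq, C.nn, h.na, h.nb, real_inner_comm n b, h.nb, real_inner_comm a b,
    real_inner_comm b e] at this
  calc _ = (σ * σ) * (det3 b e n * det3 a b n) := by ring
    _ = _ := by rw [hσ, this]; ring

theorem BD.chain (C : Ctx V n c) (hσ : σ * σ = 1) (h : BD V n c σ w a b) :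
    ∃ M, Chain V σ w a b M ∧ angle a b + M * (π / 3) < 2 * π ∧ angle a b ≤ M * (π / 3) := by
  obtain ⟨M, h1, h2⟩ := exists_chain C.nf (sig_ne hσ) h.vert h.dart fun p' q' hd hne =>
    C.ang σ w p' q' (sig_ne hσ) h.vert hd fun ⟨_, h1, h2⟩ => hne
      (h.dart.unique_of_plane C.nf (sig_ne hσ) hd (by rw [h.det_eq C, h1, mul_zero])
        (by rw [h.det_eq C, h2, mul_zero])).1
  refine ⟨M, h1, h2, ?_⟩
  rw [angle_comm]
  refine h1.angle_le fun h0 => ?_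
  have := h.dart.np
  rw [h0] at this; simp at this

theorem BD.types (C : Ctx V n c) (hσ : σ * σ = 1) (h : BD V n c σ w a b)
    (hε : π - angle a b < π / 3) :
    (∃ e, Dart V σ w b e ∧ Dart V σ w e a ∧ ⟪b, e⟫ = 1 / 2 ∧ ⟪e, a⟫ = -(1 / 2)) ∨
    (∃ e, Dart V σ w b e ∧ Dart V σ w e a ∧ ⟪b, e⟫ = -(1 / 2) ∧ ⟪e, a⟫ = 1 / 2) ∨
    (∃ e1 e2, Dart V σ w b e1 ∧ Dart V σ w e1 e2 ∧ Dart V σ w e2 a ∧ ⟪b, e1⟫ = 1 / 2 ∧
      ⟪e1, e2⟫ = 1 / 2 ∧ ⟪e2, a⟫ = 1 / 2) := by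
  obtain ⟨M, hM, h1, h2⟩ := h.chain C hσ
  have hpi := pi_pos
  have hM3 : M = 3 := by
    have a1 : (M : ℝ) < 4 := by nlinarith
    have a2 : (2 : ℝ) < M := by nlinarith
    have a3 : M < 4 := by exact_mod_cast a1
    have a4 : 2 < M := by exact_mod_cast a2
    omega
  subst hM3
  obtain ⟨e1, m1, M1, s1, d1, u1, c1⟩ := hM.inv' h.dart.ind.ne.symm
  have hne : e1 ≠ a := fun e => h.dart.not_swap C.nf (sig_ne hσ) (e ▸ d1)
  obtain ⟨e2, m2, M2, s2, d2, u2, c2⟩ := c1.inv' hne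
  rcases u1 with ⟨u1, rfl⟩ | ⟨u1, rfl⟩ <;> rcases u2 with ⟨u2, rfl⟩ | ⟨u2, rfl⟩
  · obtain rfl : M2 = 1 := by omega
    have hne2 : e2 ≠ a := fun e => by
      have := (e ▸ c2).self
      omega
    obtain ⟨e3, m3, M3, s3, d3, u3, c3⟩ := c2.inv' hne2
    rcases u3 with ⟨u3, rfl⟩ | ⟨u3, rfl⟩
    · obtain rfl : M3 = 0 := by omega
      obtain rfl := c3.zero
      exact Or.inr (Or.inr ⟨e1, e2, d1, d2, d3, u1, u2, u3⟩)
    · omega
  · obtain rfl : M2 = 0 := by omega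
    obtain rfl := c2.zero
    exact Or.inl ⟨e1, d1, d2, u1, u2⟩
  · obtain rfl : M2 = 0 := by omega
    obtain rfl := c2.zero
    exact Or.inr (Or.inl ⟨e1, d1, d2, u1, u2⟩)
  · omega

theorem ip_lt_half {x y : E3} (hx : ⟪x, x⟫ = 1) (hy : ⟪y, y⟫ = 1) (h : π / 3 < angle x y) :
    ⟪x, y⟫ < 1 / 2 := by
  rw [← cos_angle_unit hx hy, ← cos_pi_div_three]
  exact cos_lt_cos_of_nonneg_of_le_pi (by positivity) (angle_le_pi _ _) h

theorem angle_le_of_ip {x y x' y' : E3} (hx : ⟪x, x⟫ = 1) (hy : ⟪y, y⟫ = 1) (hx' : ⟪x', x'⟫ = 1)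
    (hy' : ⟪y', y'⟫ = 1) (h : ⟪x', y'⟫ ≤ ⟪x, y⟫) : angle x y ≤ angle x' y' := by
  by_contra hlt
  push Not at hlt
  have := cos_lt_cos_of_nonneg_of_le_pi (angle_nonneg _ _) (angle_le_pi _ _) hlt
  rw [cos_angle_unit hx hy, cos_angle_unit hx' hy'] at this
  linarith

/-- The key inequality at a base vertex with three dome angles of sixty degrees. -/
theorem typeB_ineq (C : Ctx V n c) (hσ : σ * σ = 1) (h : BD V n c σ w a b)
    (hε : π - angle a b < π / 3) {e1 e2 : E3} (d1 : Dart V σ w b e1) (d2 : Dart V σ w e1 e2)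
    (d3 : Dart V σ w e2 a) (u1 : ⟪b, e1⟫ = 1 / 2) (u2 : ⟪e1, e2⟫ = 1 / 2) (u3 : ⟪e2, a⟫ = 1 / 2) :
    ⟪e1, a⟫ + ⟪e2, b⟫ < ⟪a, b⟫ ∧ -(1 / 2) < ⟪e1, a⟫ ∧ -(1 / 2) < ⟪e2, b⟫ := by
  have D1 := d2.det_pos C.nf (sig_ne hσ) d3
  have D2 := d1.det_pos C.nf (sig_ne hσ) d2
  rw [← det3_cyc] at D2
  have s1 : ⟪e1, a⟫ < 1 / 2 := by
    refine ip_lt_half d2.np d3.nq ?_
    have := angle_le_angle_add_angle b e1 a
    rw [angle_sixty d1.np d1.nq u1, angle_comm b a] at this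
    linarith
  have t1 : ⟪e2, b⟫ < 1 / 2 := by
    refine ip_lt_half d2.nq d1.np ?_
    have := angle_le_angle_add_angle a e2 b
    rw [angle_comm a e2, angle_sixty d3.np d3.nq u3] at this
    linarith
  have g1 := det3_mul_det3 e1 e2 a e1 e2 a
  have g2 := det3_mul_det3 e1 e2 b e1 e2 b
  have g3 := det3_mul_det3 e1 e2 a e1 e2 b
  simp only [d2.np, d2.nq, d3.nq, d1.np, u2, u3, real_inner_comm e1 e2, real_inner_comm e1 a,
    real_inner_comm e2 a, real_inner_comm e2 b, real_inner_comm b e1, u1] at g1 g2 g3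
  set s := ⟪e1, a⟫
  set t := ⟪e2, b⟫
  set X := σ * det3 e1 e2 a with hX
  set Y := σ * det3 e1 e2 b with hY
  have x2 : X ^ 2 = (s + 1 / 2) * (1 - s) := by
    calc _ = (σ * σ) * (det3 e1 e2 a * det3 e1 e2 a) := by rw [hX]; ring
      _ = _ := by rw [hσ, g1]; ring
  have y2 : Y ^ 2 = (t + 1 / 2) * (1 - t) := by
    calc _ = (σ * σ) * (det3 e1 e2 b * det3 e1 e2 b) := by rw [hY]; ring
      _ = _ := by rw [hσ, g2]; ring
  have xy : X * Y = 3 / 4 * ⟪a, b⟫ - t / 2 - s / 2 + s * t / 2 + 1 / 8 := by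
    calc _ = (σ * σ) * (det3 e1 e2 a * det3 e1 e2 b) := by rw [hX, hY]; ring
      _ = _ := by rw [hσ, g3]; ring
  have s0 : 0 < s + 1 / 2 := by
    by_contra hn
    nlinarith [pow_pos D1 2]
  have t0 : 0 < t + 1 / 2 := by
    by_contra hn
    nlinarith [pow_pos D2 2]
  have hx : (s + 1 / 2) ^ 2 < 2 * X ^ 2 := by nlinarith
  have hy : (t + 1 / 2) ^ 2 < 2 * Y ^ 2 := by nlinarith
  have hxy : (s + 1 / 2) * (t + 1 / 2) < 2 * (X * Y) := by
    refine lt_of_pow_lt_pow_left₀ 2 (by positivity) ?_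
    calc ((s + 1 / 2) * (t + 1 / 2)) ^ 2 = (s + 1 / 2) ^ 2 * (t + 1 / 2) ^ 2 := by ring
      _ < (2 * X ^ 2) * (2 * Y ^ 2) := mul_lt_mul'' hx hy (by positivity) (by positivity)
      _ = _ := by ring
  exact ⟨by nlinarith, by linarith, by linarith⟩

/-- The data at a base vertex of a sixty-degree dome face on the edge `b`. -/
structure Pack (V : Finset E3) (σ : ℝ) (w b e u : E3) : Prop where
  d : Dart V σ w b e
  be : ⟪b, e⟫ = 1 / 2
  uu : ⟪u, u⟫ = 1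
  ue : ⟪u, e⟫ = -(1 / 2)
  nx : Dart V σ w e u ∨ Dart V σ w e (u + e)

theorem pack_of_B {e1 e2 : E3} (d1 : Dart V σ w b e1) (d2 : Dart V σ w e1 e2)
    (u1 : ⟪b, e1⟫ = 1 / 2) (u2 : ⟪e1, e2⟫ = 1 / 2) : Pack V σ w b e1 (e2 - e1) :=
  ⟨d1, u1, by
    simp only [inner_sub_left, inner_sub_right, d2.np, d2.nq, u2, real_inner_comm e1 e2]; norm_num,
    by simp only [inner_sub_left, d2.np, u2, real_inner_comm e1 e2]; norm_num,
    Or.inr (by simpa using d2)⟩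

theorem neg_unit {x : E3} (h : ⟪x, x⟫ = (1 : ℝ)) : ⟪-x, -x⟫ = (1 : ℝ) := by simpa using h

theorem right_package (C : Ctx V n c) (hσ : σ * σ = 1) (h : BD V n c σ w a b)
    (hε : π - angle a b < π / 3) {e : E3} (hd : Dart V σ w b e) (hneg : 0 < σ * det3 b e n) :
    ∃ u, Pack V σ w b e u ∧ angle u (-b) ≤ π - angle a b ∧ -(1 / 2) ≤ ⟪e, a⟫ := by
  rcases h.types C hσ hε with ⟨e', d1, d2, u1, u2⟩ | ⟨e', d1, d2, u1, u2⟩ |
    ⟨e1, e2, d1, d2, d3, u1, u2, u3⟩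
  · obtain rfl := hd.succ_unique (sig_ne hσ) d1
    exact ⟨a, ⟨d1, u1, d2.nq, by rw [real_inner_comm]; exact u2, Or.inl d2⟩,
      by rw [angle_neg_right], u2.ge⟩
  · obtain rfl := hd.succ_unique (sig_ne hσ) d1
    exfalso
    have t := h.tilt C hσ e'
    have s := h.s_pos C hσ
    have q := h.dart.ind.sq_lt h.dart.np h.dart.nq
    rw [u1, u2] at t
    nlinarith [mul_pos s hneg]
  · obtain rfl := hd.succ_unique (sig_ne hσ) d1
    obtain ⟨k1, k2, k3⟩ := typeB_ineq C hσ h hε d1 d2 d3 u1 u2 u3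
    have P := pack_of_B d1 d2 u1 u2
    refine ⟨_, P, ?_, k2.le⟩
    rw [← angle_neg_right]
    refine angle_le_of_ip P.uu (neg_unit d1.np) d3.nq (neg_unit d1.np) ?_
    simp only [inner_neg_right, inner_sub_left, real_inner_comm b e1, u1]
    linarith

theorem Ctx.ang_up (C : Ctx V n c) (hσ : σ ≠ 0) {v : E3} (hv : Vert V v) (hc : c < ⟪n, v⟫)
    {p q : E3} (hd : Dart V σ v p q) : ⟪p, q⟫ = 1 / 2 ∨ ⟪p, q⟫ = -(1 / 2) :=
  C.ang σ v p q hσ hv hd fun h => absurd h.1 hc.ne'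

/-- Moving a dart `(e3, q)` with `e3 = u` or `u + q` along `q`. -/
theorem move_dart (C : Ctx V n c) (hσ : σ ≠ 0) (hw : Vert V w) {q u v : E3} (uu : ⟪u, u⟫ = 1)
    (uq : ⟪u, q⟫ = -(1 / 2)) (hd : Dart V σ w u q ∨ Dart V σ w (u + q) q) (hv : IsNext V w q v)
    (hnb : c < ⟪n, v⟫ ∨ (⟪n, q⟫ = 0 ∧ 0 < ⟪n, u⟫)) :
    Dart V σ v (-q) u ∨ Dart V σ v (-q) (u + q) := by
  have key : ∃ (y : E3) (s t : ℝ), Dart V σ v (-q) y ∧ 0 < s ∧ y = s • u + t • q ∧ Vert V v := by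
    rcases hd with hd | hd
    · obtain ⟨y, s, t, d, hs, e⟩ := hd.next_dart C.nf hσ hw hv
      exact ⟨y, s, t, d, hs, e, hd.next_vert C.nf hσ hw hv⟩
    · obtain ⟨y, s, t, d, hs, e⟩ := hd.next_dart C.nf hσ hw hv
      exact ⟨y, s, s + t, d, hs, by rw [e]; module, hd.next_vert C.nf hσ hw hv⟩
  obtain ⟨y, s, t, d, hs, e, hvv⟩ := key
  have qq : ⟪q, q⟫ = (1 : ℝ) := by simpa using d.np
  obtain ⟨l1, l2⟩ := lattice_dir uu qq uq d.nq hs e
  have hang := C.ang σ v (-q) y hσ hvv d (by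
    rintro ⟨h1, h2, h3⟩
    rcases hnb with hnb | ⟨hq, hu⟩
    · linarith
    · rw [e, inner_add_right, inner_smul_right, inner_smul_right, hq] at h3
      nlinarith)
  rw [inner_neg_left, real_inner_comm] at hang
  rcases hang with h1 | h1
  · exact Or.inl (l1 (by linarith) ▸ d)
  · exact Or.inr (l2 (by linarith) ▸ d)

theorem unit_add {u q : E3} (uu : ⟪u, u⟫ = 1) (qq : ⟪q, q⟫ = 1) (uq : ⟪u, q⟫ = -(1 / 2)) :
    ⟪u + q, u + q⟫ = (1 : ℝ) ∧ ⟪u + q, u⟫ = 1 / 2 ∧ ⟪u + q, q⟫ = 1 / 2 := by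
  simp only [inner_add_left, inner_add_right, uu, qq, uq, real_inner_comm u q]; norm_num

theorem unit_sub {b e : E3} (bb : ⟪b, b⟫ = 1) (ee : ⟪e, e⟫ = 1) (be : ⟪b, e⟫ = 1 / 2) :
    ⟪b - e, b - e⟫ = (1 : ℝ) ∧ ⟪b - e, e⟫ = -(1 / 2) := by
  simp only [inner_sub_left, inner_sub_right, bb, ee, be, real_inner_comm b e]; norm_num

theorem unit_ne_zero {x : E3} (h : ⟪x, x⟫ = (1 : ℝ)) : x ≠ 0 := fun h0 => by
  rw [h0] at h; simp at h

/-- The chain at a dome vertex, starting after a dart `(y', -e)` with `y' = u` or `u + e`. -/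
theorem dome_chain (C : Ctx V n c) (hσ : σ ≠ 0) {v e u : E3} (hv : Vert V v) (hc : c < ⟪n, v⟫)
    (uu : ⟪u, u⟫ = 1) (ue : ⟪u, e⟫ = -(1 / 2))
    (hd : Dart V σ v u (-e) ∨ Dart V σ v (u + e) (-e)) :
    ∃ (y' : E3) (M k : ℕ), Dart V σ v y' (-e) ∧ Chain V σ v y' (-e) M ∧ k + M ≤ 4 ∧
      angle y' u ≤ k * (π / 3) := by
  have hpi := pi_pos
  rcases hd with hd | hd
  · obtain ⟨M, hM, hs⟩ := exists_chain C.nf hσ hv hd fun p q d _ => C.ang_up hσ hv hc d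
    rw [angle_sixty hd.np hd.nq (by rw [inner_neg_right, ue]; norm_num)] at hs
    have a1 : (M : ℝ) < 5 := by nlinarith
    have a3 : M < 5 := by exact_mod_cast a1
    exact ⟨u, M, 0, hd, hM, by omega, by simp [angle_self (unit_ne_zero uu)]⟩
  · have ee : ⟪e, e⟫ = (1 : ℝ) := by simpa using hd.nq
    obtain ⟨k1, k2, k3⟩ := unit_add uu ee ue
    obtain ⟨M, hM, hs⟩ := exists_chain C.nf hσ hv hd fun p q d _ => C.ang_up hσ hv hc d
    rw [angle_onetwenty hd.np hd.nq (by rw [inner_neg_right, k3])] at hs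
    have a1 : (M : ℝ) < 4 := by nlinarith
    have a3 : M < 4 := by exact_mod_cast a1
    exact ⟨u + e, M, 1, hd, hM, by omega, by simp [angle_sixty k1 uu k2]⟩

theorem peak (C : Ctx V n c) (hσ : σ ≠ 0) (hw : Vert V w) {e u v : E3} (P : Pack V σ w b e u)
    (hg : angle u (-b) < π / 3) (hv : IsNext V w e v) (hc : c < ⟪n, v⟫) :
    Dart V σ v (-e) (b - e) ∧ (Dart V σ v u (-e) ∨ Dart V σ v (u + e) (-e)) := by
  have hpi := pi_pos
  have hvv := P.d.next_vert C.nf hσ hw hv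
  obtain ⟨k1, k2⟩ := unit_sub P.d.np P.d.nq P.be
  have h2 : Dart V σ v u (-e) ∨ Dart V σ v (u + e) (-e) := by
    rcases move_dart C (neg_ne_zero.2 hσ) hw P.uu P.ue (P.nx.imp Dart.mirror Dart.mirror) hv
      (Or.inl hc) with h | h
    · exact Or.inl h.mirror'
    · exact Or.inr h.mirror'
  refine ⟨?_, h2⟩
  rcases move_dart C hσ hw k1 k2 (Or.inr (by simpa using P.d)) hv (Or.inl hc) with h | h
  · exact h
  exfalso
  rw [sub_add_cancel] at h
  obtain ⟨y', M, k, d, hM, hk, ha⟩ := dome_chain C hσ hvv hc P.uu P.ue h2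
  obtain ⟨m, M', rfl, hm, hM'⟩ := hM.inv hσ d.ind.ne.symm h
  have hm2 : m = 2 := by
    rcases hm with ⟨hm, _⟩ | ⟨_, hm⟩
    · rw [inner_neg_left, real_inner_comm, P.be] at hm; norm_num at hm
    · exact hm
  have a1 := hM'.angle_le (unit_ne_zero d.np)
  have a2 := angle_le_angle_add_angle b y' u
  rw [angle_neg_right, angle_comm] at hg
  have a3 : (M' : ℝ) + k ≤ 2 := by exact_mod_cast (by omega : M' + k ≤ 2)
  nlinarith

theorem triangle_ineq (C : Ctx V n c) (hσ : σ ≠ 0) (hw : Vert V w) (hwc : ⟪n, w⟫ = c)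
    {e u w' u' : E3} (hne : 0 < ⟪n, e⟫) (P : Pack V σ w b e u) (hw' : IsNext V w b w')
    (hvw' : Vert V w') (P' : Pack V (-σ) w' (-b) (e - b) u') :
    π / 3 ≤ angle u (-b) + angle u' b := by
  have hpi := pi_pos
  by_contra hlt
  push Not at hlt
  obtain ⟨v, hv⟩ := exists_next P.d.nq P.d.cq
  have hvv := P.d.next_vert C.nf hσ hw hv
  have hc : c < ⟪n, v⟫ := by
    obtain ⟨t, ht, ev, _⟩ := hv
    rw [ev, inner_add_right, inner_smul_right, hwc]
    nlinarith [mul_pos ht hne]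
  obtain ⟨d1, d2⟩ := peak C hσ hw P (by linarith [angle_nonneg u' b]) hv hc
  have hv' : IsNext V w' (e - b) v := by
    obtain ⟨s, hs, ev, hvm, _⟩ := hv
    obtain ⟨t, ht, ew, hwm, _⟩ := hw'
    have hind := P.d.ind
    obtain ⟨α, β, hα, hβ, e1⟩ := P'.d.cone v hvm (by rw [ev, ew]; simp [det3]; ring)
    obtain ⟨α', β', hα', hβ', e2⟩ := d1.cone w' hwm (by rw [ev, ew]; simp [det3]; ring)
    obtain ⟨c1, c2⟩ := hind.coeff (s := -t) (t := s) (s' := -α - β) (t' := β) (by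
      have : (-t) • b + s • e = v - w' := by rw [ev, ew]; module
      rw [this, e1]; module)
    obtain ⟨c3, c4⟩ := hind.coeff (s := t) (t := -s) (s' := β') (t' := -α' - β') (by
      have : t • b + (-s) • e = w' - v := by rw [ev, ew]; module
      rw [this, e2]; module)
    have hst : s = t := by linarith
    refine ⟨t, ht, by rw [ev, ew, hst]; module, hvm, fun t' ht' => ?_⟩
    have e3 : w' + t' • (e - b) - v = (t - t') • b + (t' - t) • e := by rw [ev, ew, hst]; module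
    obtain ⟨γ, δ, hγ, hδ, e4⟩ := d1.cone _ ht' (by rw [e3]; simp [det3]; ring)
    obtain ⟨c5, _⟩ := hind.coeff (s := t - t') (t := t' - t) (s' := δ) (t' := -γ - δ) (by
      rw [← e3, e4]; module)
    linarith
  have d3 := move_dart C hσ hvw' P'.uu P'.ue (P'.nx.imp Dart.mirror' Dart.mirror') hv' (Or.inl hc)
  rw [neg_sub] at d3
  obtain ⟨y', M, k, d, hM, hk, ha⟩ := dome_chain C hσ hvv hc P.uu P.ue d2
  obtain ⟨m, M', rfl, hm, hM'⟩ := hM.inv hσ d.ind.ne.symm d1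
  have hm1 : 1 ≤ m := by rcases hm with ⟨_, rfl⟩ | ⟨_, rfl⟩ <;> omega
  have hne' : b - e ≠ y' := fun e => d.not_swap C.nf hσ (e ▸ d1)
  have key : ∃ (y'' : E3) (k' M'' : ℕ), Chain V σ v y' y'' M'' ∧ k' + 1 + M'' ≤ M' ∧
      angle u' y'' ≤ k' * (π / 3) := by
    rcases d3 with d3 | d3
    · obtain ⟨m', M'', rfl, hm', hM''⟩ := hM'.inv hσ hne' d3
      have : 1 ≤ m' := by rcases hm' with ⟨_, rfl⟩ | ⟨_, rfl⟩ <;> omega
      exact ⟨_, 0, M'', hM'', by omega, by simp [angle_self (unit_ne_zero P'.uu)]⟩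
    · obtain ⟨m', M'', rfl, hm', hM''⟩ := hM'.inv hσ hne' d3
      obtain ⟨k1, k2, k3⟩ := unit_add P'.uu P'.d.nq P'.ue
      have : m' = 2 := by
        rcases hm' with ⟨hm', _⟩ | ⟨_, hm'⟩
        · rw [← neg_sub, inner_neg_left, real_inner_comm, k3] at hm'; norm_num at hm'
        · exact hm'
      exact ⟨_, 1, M'', hM'', by omega, by rw [angle_comm]; simp [angle_sixty k1 P'.uu k2]⟩
  obtain ⟨y'', k', M'', hM'', hk', ha'⟩ := key
  have a1 := hM''.angle_le (unit_ne_zero d.np)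
  have a2 := angle_le_angle_add_angle b u' (-b)
  have a3 := angle_le_angle_add_angle u' y'' (-b)
  have a4 := angle_le_angle_add_angle y'' y' (-b)
  have a5 := angle_le_angle_add_angle y' u (-b)
  rw [angle_self_neg_of_nonzero (unit_ne_zero P.d.np), angle_comm b u'] at a2
  have a6 : (k' : ℝ) + M'' + k ≤ 2 := by exact_mod_cast (by omega : k' + M'' + k ≤ 2)
  nlinarith

end Pool.Agent.Lib.MP_2b4858_co
end

-- part Pool.Agent.Lib.MP_2b4858_co.Core
section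

set_option autoImplicit false

namespace Pool.Agent.Lib.MP_2b4858_co

open scoped RealInnerProductSpace
open InnerProductGeometry Real

variable {V : Finset E3} {n : E3} {c σ : ℝ} {w a b : E3}

def Good (V : Finset E3) (n : E3) (σ : ℝ) (w a b : E3) : Prop :=
  ∃ e u, Pack V σ w b e u ∧ angle u (-b) ≤ π - angle a b ∧ 0 < σ * det3 b e n ∧
    σ * det3 b e n ≤ 0.27 * (π - angle a b)

theorem tilt_bound (C : Ctx V n c) (hσ : σ * σ = 1) (h : BD V n c σ w a b)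
    (hε : π - angle a b < π / 6) {e : E3} (h1 : ⟪b, e⟫ = 1 / 2) (h2 : -(1 / 2) ≤ ⟪e, a⟫) :
    σ * det3 b e n ≤ 0.27 * (π - angle a b) := by
  have t := h.tilt C hσ e
  have s := h.s_pos C hσ
  have q := h.s_sq C hσ
  set ε := π - angle a b with hεd
  have e0 : 0 ≤ ε := by linarith [angle_le_pi a b]
  have hc : ⟪a, b⟫ = -cos ε := by rw [hεd, cos_pi_sub, cos_angle_unit h.dart.np h.dart.nq]; ring
  have hpi := pi_lt_d4
  have hs0 : 0 ≤ sin ε := sin_nonneg_of_nonneg_of_le_pi e0 (by linarith [pi_pos])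
  have hs : σ * det3 a b n = sin ε := by
    refine (pow_left_inj₀ s.le hs0 two_ne_zero).1 ?_
    rw [hc] at q
    nlinarith [sin_sq_add_cos_sq ε]
  have b1 := one_sub_sq_div_two_le_cos (x := ε)
  have b2 := sin_ge_sub_cube e0
  have e1 : ε < 0.5236 := by linarith
  have b3 : 0.95 * ε ≤ sin ε := by nlinarith [mul_nonneg e0 e0]
  rw [hs, h1, hc] at t
  rw [hs] at s
  refine le_of_mul_le_mul_left ?_ s
  nlinarith [mul_nonneg e0 e0]

theorem good_of_neg (C : Ctx V n c) (hσ : σ * σ = 1) (h : BD V n c σ w a b)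
    (hε : π - angle a b < π / 6) {e : E3} (hd : Dart V σ w b e) (hneg : 0 < σ * det3 b e n) :
    Good V n σ w a b := by
  obtain ⟨u, P, h1, h2⟩ := right_package C hσ h (by linarith [pi_pos]) hd hneg
  exact ⟨e, u, P, h1, hneg, tilt_bound C hσ h hε P.be h2⟩

theorem tiny_good (C : Ctx V n c) (hσ : σ * σ = 1) (h : BD V n c σ w a b)
    (hε : π - angle a b < π / 6) : Good V n σ w a b ∨ Good V n (-σ) w b a := by
  have hε' : π - angle b a < π / 6 := by rwa [angle_comm]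
  have q := h.dart.ind.sq_lt h.dart.np h.dart.nq
  have R : ∀ e, Dart V σ w b e → 0 < ⟪a, b⟫ * ⟪b, e⟫ - ⟪e, a⟫ → Good V n σ w a b := fun e d he =>
    good_of_neg C hσ h hε d ((mul_pos_iff_of_pos_left (h.s_pos C hσ)).1 (by rwa [h.tilt C hσ e]))
  have L : ∀ e, Dart V σ w e a → 0 < ⟪b, a⟫ * ⟪a, e⟫ - ⟪e, b⟫ → Good V n (-σ) w b a := fun e d he =>
    good_of_neg C (sig_neg hσ) h.mirror hε' d.mirror
      ((mul_pos_iff_of_pos_left (h.mirror.s_pos C (sig_neg hσ))).1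
        (by rwa [h.mirror.tilt C (sig_neg hσ) e]))
  rcases h.types C hσ (by linarith [pi_pos]) with ⟨e', d1, d2, u1, u2⟩ | ⟨e', d1, d2, u1, u2⟩ |
    ⟨e1, e2, d1, d2, d3, u1, u2, u3⟩
  · exact Or.inl (R e' d1 (by rw [u1, u2]; nlinarith))
  · refine Or.inr (L e' d2 ?_)
    rw [real_inner_comm e' a, real_inner_comm b e', real_inner_comm a b, u1, u2]; nlinarith
  · obtain ⟨k1, _, _⟩ := typeB_ineq C hσ h (by linarith [pi_pos]) d1 d2 d3 u1 u2 u3
    by_cases hk : 0 < ⟪a, b⟫ * ⟪b, e1⟫ - ⟪e1, a⟫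
    · exact Or.inl (R e1 d1 hk)
    · refine Or.inr (L e2 d3 ?_)
      rw [u1] at hk
      rw [real_inner_comm e2 a, real_inner_comm a b, u3]; linarith

theorem across (C : Ctx V n c) (hσ : σ ≠ 0) (hw : Vert V w) {e w' : E3} (d : Dart V σ w b e)
    (be : ⟪b, e⟫ = 1 / 2) (nb : ⟪n, b⟫ = 0) (ne : 0 < ⟪n, e⟫) (hw' : IsNext V w b w') :
    Dart V (-σ) w' (-b) (e - b) ∨ Dart V (-σ) w' (-b) e := by
  obtain ⟨k1, k2⟩ := unit_sub d.nq d.np (by rw [real_inner_comm]; exact be)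
  have := move_dart C (neg_ne_zero.2 hσ) hw k1 k2 (Or.inr (by simpa using d.mirror)) hw'
    (Or.inr ⟨nb, by rw [inner_sub_right, nb]; linarith⟩)
  simpa using this

theorem one_sided (C : Ctx V n c) (hσ : σ * σ = 1) (h : BD V n c σ w a b) (G : Good V n σ w a b)
    {w' b' : E3} (hw' : IsNext V w b w') (h' : BD V n c σ w' (-b) b') :
    π / 3 ≤ (π - angle a b) + (π - angle (-b) b') := by
  by_contra hlt
  push Not at hlt
  obtain ⟨e, u, P, g1, g2, _⟩ := G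
  have ne := h.up_pos C hσ P.d
  have hε' : π - angle b' (-b) < π / 3 := by rw [angle_comm]; linarith [angle_le_pi a b]
  rcases across C (sig_ne hσ) h.vert P.d P.be h.nb ne hw' with d | d
  · obtain ⟨u', P', g', _⟩ := right_package C (sig_neg hσ) h'.mirror hε' d (by
      convert g2 using 1; simp [det3]; ring)
    have := triangle_ineq C (sig_ne hσ) h.vert h.hw ne P hw' h'.vert P'
    rw [neg_neg, angle_comm b'] at g'
    linarith
  · obtain ⟨u', P', _, _⟩ := right_package C (sig_neg hσ) h'.mirror hε' d (by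
      convert g2 using 1; simp [det3]; ring)
    have := P'.be
    rw [inner_neg_left, P.be] at this
    norm_num at this

theorem side_info (C : Ctx V n c) (hσ : σ * σ = 1) (h : BD V n c σ w a b) {w2 b2 : E3}
    (hw2 : IsNext V w b w2) (h2 : BD V n c σ w2 (-b) b2) (G : Good V n (-σ) w2 b2 (-b)) :
    ∃ e, Dart V σ w b e ∧ 0 < σ * det3 b e n ∧ σ * det3 b e n ≤ 0.27 * (π - angle b2 (-b)) ∧
      (⟪b, e⟫ = 1 / 2 ∨ ⟪b, e⟫ = -(1 / 2)) ∧
      ∀ u, Pack V σ w b e u → π / 3 ≤ angle u (-b) + (π - angle b2 (-b)) := by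
  obtain ⟨f, u2, P, g1, g2, g3⟩ := G
  have nf := h2.mirror.up_pos C (sig_neg hσ) P.d
  have bf : ⟪b, f⟫ = -(1 / 2) := by
    have := P.be
    rw [inner_neg_left] at this; linarith
  rcases across C (sig_ne (sig_neg hσ)) h2.vert P.d P.be h2.na nf (h.dart.next_back h.vert hw2)
    with d | d
  · simp only [neg_neg, sub_neg_eq_add] at d g1
    have e1 : σ * det3 b (f + b) n = -σ * det3 (-b) f n := by simp [det3]; ring
    refine ⟨f + b, d, e1 ▸ g2, e1 ▸ g3, Or.inl ?_, fun u P1 => ?_⟩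
    · rw [inner_add_right, bf, d.np]; norm_num
    · have := triangle_ineq C (sig_ne hσ) h.vert h.hw (h.up_pos C hσ d) P1 hw2 h2.vert
        (u' := u2) (by simpa using P)
      linarith
  · simp only [neg_neg] at d
    have e1 : σ * det3 b f n = -σ * det3 (-b) f n := by simp [det3]; ring
    refine ⟨f, d, e1 ▸ g2, e1 ▸ g3, Or.inr bf, fun u P1 => ?_⟩
    have := P1.be
    rw [bf] at this; norm_num at this

theorem trig_B {ε x y : ℝ} (hε : ε < π / 3) (hx0 : 0 ≤ x) (hy0 : 0 ≤ y) (hx : x ≤ π) (hy : y ≤ π)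
    (hε0 : 0 ≤ ε) (hs : ε + π / 6 < x + y) (hc : 1 + cos ε < cos x + cos y) : False := by
  have hpi := pi_gt_d2
  have hpi' := pi_lt_d2
  have hxε : x ≤ ε := by
    by_contra hn
    push Not at hn
    have := cos_lt_cos_of_nonneg_of_le_pi hε0 hx hn
    linarith [cos_le_one y]
  have hyε : y ≤ ε := by
    by_contra hn
    push Not at hn
    have := cos_lt_cos_of_nonneg_of_le_pi hε0 hy hn
    linarith [cos_le_one x]
  rw [cos_add_cos] at hc
  have h1 : 0 ≤ cos ((x + y) / 2) := cos_nonneg_of_mem_Icc ⟨by linarith, by linarith⟩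
  have h2 : cos ((x + y) / 2) ≤ cos (ε / 2 + 0.26) :=
    cos_le_cos_of_nonneg_of_le_pi (by linarith) (by linarith) (by linarith)
  have h3 : cos ε = 2 * cos (ε / 2) ^ 2 - 1 := by rw [← cos_two_mul]; ring_nf
  have h4 : cos ((x + y) / 2) * cos ((x - y) / 2) ≤ cos ((x + y) / 2) :=
    mul_le_of_le_one_right h1 (cos_le_one _)
  rw [cos_add] at h2
  have s1 : (0.257 : ℝ) ≤ sin 0.26 := by
    have := sin_ge_sub_cube (x := 0.26) (by norm_num)
    norm_num at this ⊢; linarith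
  have c0 : 0 ≤ cos (0.26 : ℝ) := cos_nonneg_of_mem_Icc ⟨by linarith, by linarith⟩
  have c1 : cos (0.26 : ℝ) ≤ 0.9665 := by nlinarith [sin_sq_add_cos_sq (0.26 : ℝ)]
  have S0 : 0 ≤ sin (ε / 2) := sin_nonneg_of_nonneg_of_le_pi (by linarith) (by linarith)
  have S1 : sin (ε / 2) ≤ 1 / 2 := by
    rw [← sin_pi_div_six]
    exact sin_le_sin_of_le_of_le_pi_div_two (by linarith) (by linarith) (by linarith)
  have C0 : 0 ≤ cos (ε / 2) := cos_nonneg_of_mem_Icc ⟨by linarith, by linarith⟩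
  have C2 := sin_sq_add_cos_sq (ε / 2)
  have C1 : 0.866 ≤ cos (ε / 2) := by nlinarith
  set S := sin (ε / 2)
  set K := cos (ε / 2)
  have K1 : K ≤ 1 := by nlinarith
  have h5 : K * cos 0.26 - S * sin 0.26 ≤ K * 0.9665 - S * 0.257 := by
    linarith [mul_le_mul_of_nonneg_left c1 C0, mul_le_mul_of_nonneg_left s1 S0]
  have h6 : 1.866 * (1 - K) ≤ S / 2 := by
    linarith [mul_le_mul_of_nonneg_left C1 (sub_nonneg.2 K1), mul_le_mul_of_nonneg_left S1 S0]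
  linarith [sq_nonneg (K - 0.96)]

theorem frame_ip (hσ : σ * σ = 1) (aa : ⟪a, a⟫ = 1) (nn : ⟪n, n⟫ = 1) (na : ⟪n, a⟫ = 0)
    (x y : E3) :
    ⟪x, y⟫ = ⟪a, x⟫ * ⟪a, y⟫ + (σ * det3 n a x) * (σ * det3 n a y) + ⟪n, x⟫ * ⟪n, y⟫ := by
  have := det3_mul_det3 n a x n a y
  rw [aa, nn, na, real_inner_comm n a, na, real_inner_comm n x, real_inner_comm a x] at this
  have e : (σ * det3 n a x) * (σ * det3 n a y) = (σ * σ) * (det3 n a x * det3 n a y) := by ring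
  rw [e, hσ, this]; ring

theorem frame_det (nn : ⟪n, n⟫ = 1) (na : ⟪n, a⟫ = 0) (e x : E3) :
    det3 e a x = ⟪n, e⟫ * det3 n a x + ⟪n, x⟫ * det3 e a n := by
  have : det3 e a x * ⟪n, n⟫ = ⟪n, e⟫ * det3 n a x + ⟪n, a⟫ * det3 e n x + ⟪n, x⟫ * det3 e a n := by
    simp only [ip_eq, det3]; ring
  rw [nn, na] at this
  linarith

theorem BD.comp (C : Ctx V n c) (hσ : σ * σ = 1) (h : BD V n c σ w a b) (x : E3) :
    (σ * det3 a b n) * (σ * det3 n a x) = ⟪b, x⟫ - ⟪a, b⟫ * ⟪a, x⟫ := by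
  have := det3_mul_det3 a b n n a x
  rw [h.dart.np, C.nn, h.na, real_inner_comm n a, real_inner_comm n b, h.na, h.nb,
    real_inner_comm a b] at this
  calc _ = (σ * σ) * (det3 a b n * det3 n a x) := by ring
    _ = _ := by rw [hσ, this]; ring

theorem nv_real {s cc YR YL h1 h3 k1 k3 : ℝ} (s0 : 0 < s) (sq : s ^ 2 + cc ^ 2 = 1)
    (hc0 : cc ≤ 0) (hc1 : -(1 / 2) ≤ cc) (y1 : 0 < YR) (y3 : 0 < YL) (ys : YR + YL ≤ 0.1414)
    (H1 : 0 < h1) (H3 : 0 < h3) (kk1 : k1 * k1 = 1 / 4) (kk3 : k3 * k3 = 1 / 4)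
    (n1 : 1 = k1 * k1 + YR * YR + h1 * h1) (n3 : 1 = k3 * k3 + -YL * -YL + h3 * h3) :
    h3 * (-(1 / 2) * s + cc * YR) + h1 * YL < 0 ∧ 0 < h3 * (1 / 2 * s + cc * YR) + h1 * YL ∧
      h3 * (1 / 2 * s + cc * YR) + h1 * YL - h3 * s < 0 ∧
      1 / 2 < (cc / 2 - s * YR) * (1 / 2) + (1 / 2 * s + cc * YR) * -YL + h1 * h3 := by
  have c2 : cc ^ 2 ≤ 1 / 4 := by nlinarith
  have s1 : 0.866 ≤ s := by
    by_contra hn
    push Not at hn
    nlinarith
  have s2 : s ≤ 1 := by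
    by_contra hn
    push Not at hn
    nlinarith [sq_nonneg cc]
  have YR1 : YR ≤ 0.1414 := by linarith
  have YL1 : YL ≤ 0.1414 := by linarith
  have YR2 : YR * YR ≤ 0.02 := by nlinarith
  have YL2 : YL * YL ≤ 0.02 := by nlinarith
  have h1l : 0.854 ≤ h1 := by
    by_contra hn
    push Not at hn
    have : h1 * h1 < 0.854 * 0.854 := mul_lt_mul'' hn hn H1.le H1.le
    linarith
  have h3l : 0.854 ≤ h3 := by
    by_contra hn
    push Not at hn
    have : h3 * h3 < 0.854 * 0.854 := mul_lt_mul'' hn hn H3.le H3.le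
    linarith
  have h1u : h1 ≤ 0.867 := by
    by_contra hn
    push Not at hn
    have : 0.867 * 0.867 < h1 * h1 := mul_lt_mul'' hn hn (by norm_num) (by norm_num)
    linarith [mul_self_nonneg YR]
  have cY : cc * YR ≤ 0 := mul_nonpos_of_nonpos_of_nonneg hc0 y1.le
  have cY' : -0.0707 ≤ cc * YR := by nlinarith
  have a1 : h1 * YL ≤ 0.867 * 0.1414 := mul_le_mul h1u YL1 y3.le (by norm_num)
  have a2 : 0.854 * 0.433 ≤ h3 * (1 / 2 * s - cc * YR) :=
    mul_le_mul h3l (by linarith) (by norm_num) H3.le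
  have a3 : 0 < h3 * (1 / 2 * s + cc * YR) := mul_pos H3 (by linarith)
  have a4 : 0 < h1 * YL := mul_pos H1 y3
  have p1 : 0.854 * 0.854 ≤ h1 * h3 := mul_le_mul h1l h3l (by norm_num) H1.le
  have p2 : s * (YR + YL) ≤ 1 * 0.1414 := mul_le_mul s2 ys (by linarith) (by norm_num)
  have p3 : cc * YR * YL ≤ 0 := mul_nonpos_of_nonpos_of_nonneg cY y3.le
  refine ⟨by linarith, by linarith, by linarith, by linarith⟩

theorem fin_real {l1 lh l3 g A B t : ℝ} (p3 : 0 ≤ l3) (ph : 0 ≤ lh) (hA : 0 < A) (hB : B < 0)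
    (p1' : 0 ≤ l1 * A + lh * B) (hg : 1 / 2 < g) (i1 : 1 / 2 = l1 + lh / 2 + l3 * g)
    (i2 : 1 = l1 * (1 / 2) + lh * t + l3 * (1 / 2)) (i3 : t ≤ 1) : False := by
  have b1 : lh * B ≤ 0 := mul_nonpos_of_nonneg_of_nonpos ph hB.le
  have p1 : 0 ≤ l1 := nonneg_of_mul_nonneg_left (by linarith) hA
  have b2 : lh * t ≤ lh := mul_le_of_le_one_right ph i3
  have b3 : l3 * (1 / 2) ≤ l3 * g := mul_le_mul_of_nonneg_left hg.le p3
  have j1 : l1 = 0 := by linarith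
  have j3 : l3 = 0 := by linarith
  rw [j1] at p1'
  rw [j1, j3] at i1
  have : lh = 1 := by linarith
  rw [this] at p1'
  linarith

theorem near_vertical (C : Ctx V n c) (hσ : σ * σ = 1) (h : BD V n c σ w a b) {e1 e3 : E3}
    (d1 : Dart V σ w b e1) (d3 : Dart V σ w e3 a) (hc0 : ⟪a, b⟫ ≤ 0) (hc1 : -(1 / 2) ≤ ⟪a, b⟫)
    (y1 : 0 < σ * det3 b e1 n) (y3 : 0 < -σ * det3 a e3 n)
    (ys : σ * det3 b e1 n + -σ * det3 a e3 n ≤ 0.1414)
    (k1 : ⟪b, e1⟫ = 1 / 2 ∨ ⟪b, e1⟫ = -(1 / 2)) (k3 : ⟪a, e3⟫ = 1 / 2 ∨ ⟪a, e3⟫ = -(1 / 2)) :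
    ⟪b, e1⟫ = 1 / 2 ∧ 0 < σ * det3 e3 a e1 ∧ σ * det3 e3 a (e1 - b) < 0 ∧
      (⟪a, e3⟫ = 1 / 2 → 1 / 2 < ⟪e1, e3⟫) := by
  have s0 := h.s_pos C hσ
  have sq := h.s_sq C hσ
  have H1 := h.up_pos C hσ d1
  have H3 := h.mirror.up_pos C (sig_neg hσ) d3.mirror
  have n1 := frame_ip hσ h.dart.nq C.nn h.nb e1 e1
  have n3 := frame_ip hσ h.dart.np C.nn h.na e3 e3
  have i13 := frame_ip hσ h.dart.np C.nn h.na e1 e3
  have t1 := h.tilt C hσ e1
  have c1 := h.comp C hσ e1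
  have f1 := frame_det C.nn h.na e3 e1
  have f2 := frame_det C.nn h.na e3 b
  have sup := d3.sup' d1.cq
  rw [d1.nq, det3_cyc' b e1 n] at n1
  rw [d3.np, det3_cyc' a e3 n] at n3
  rw [det3_cyc' a e3 n] at i13
  rw [h.nb, det3_cyc' a b n] at f2
  rw [det3_swap12 a e3 n] at f1
  rw [real_inner_comm a e1] at t1
  rw [det3_sub3, f1, f2]
  rw [f1] at sup
  set s := σ * det3 a b n with hs
  set cc := ⟪a, b⟫
  set YR := σ * det3 b e1 n
  set YL := -σ * det3 a e3 n with hYL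
  set h1 := ⟪n, e1⟫
  set h3 := ⟪n, e3⟫
  set A := σ * det3 n a e1 with hA
  have eL : σ * det3 a e3 n = -YL := by rw [hYL]; ring
  rw [eL] at n3 i13
  have kk1 : ⟪b, e1⟫ * ⟪b, e1⟫ = 1 / 4 := by rcases k1 with k | k <;> rw [k] <;> norm_num
  have kk3 : ⟪a, e3⟫ * ⟪a, e3⟫ = 1 / 4 := by rcases k3 with k | k <;> rw [k] <;> norm_num
  have hA' : A = ⟪b, e1⟫ * s + cc * YR := by
    refine mul_left_cancel₀ s0.ne' ?_
    have : ⟪a, e1⟫ = cc * ⟪b, e1⟫ - s * YR := by linarith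
    rw [c1, this]
    have : cc * cc = 1 - s * s := by nlinarith
    linear_combination (-⟪b, e1⟫) * this
  obtain ⟨r1, r2, r3, r4⟩ := nv_real s0 sq hc0 hc1 y1 y3 ys H1 H3 kk1 kk3 n1 n3
  have e1' : σ * (h3 * det3 n a e1 + h1 * -det3 a e3 n) = h3 * A + h1 * YL := by
    rw [hA, hYL]; ring
  have e2' : σ * (h3 * det3 n a e1 + h1 * -det3 a e3 n - (h3 * det3 a b n + 0 * det3 e3 a n))
      = h3 * A + h1 * YL - h3 * s := by rw [hA, hYL, hs]; ring
  rw [e1'] at sup ⊢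
  rw [e2']
  have kb : ⟪b, e1⟫ = 1 / 2 := by
    rcases k1 with k | k
    · exact k
    · rw [hA', k] at sup; linarith
  rw [kb] at hA' t1
  refine ⟨kb, by rw [hA']; exact r2, by rw [hA']; exact r3, fun k => ?_⟩
  have ea : ⟪a, e1⟫ = cc / 2 - s * YR := by linarith
  rw [i13, k, ea, hA']
  exact r4

theorem core (C : Ctx V n c) (hσ : σ * σ = 1) (h : BD V n c σ w a b) {e1 e3 : E3} {ε1 ε2 : ℝ}
    (d1 : Dart V σ w b e1) (d3' : Dart V (-σ) w a e3)
    (y1 : 0 < σ * det3 b e1 n) (y3 : 0 < -σ * det3 a e3 n)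
    (z1 : σ * det3 b e1 n ≤ 0.27 * ε2) (z3 : -σ * det3 a e3 n ≤ 0.27 * ε1)
    (k1 : ⟪b, e1⟫ = 1 / 2 ∨ ⟪b, e1⟫ = -(1 / 2)) (k3 : ⟪a, e3⟫ = 1 / 2 ∨ ⟪a, e3⟫ = -(1 / 2))
    (t1 : ∀ u, Pack V σ w b e1 u → π / 3 ≤ angle u (-b) + ε2)
    (t3 : ∀ u, Pack V (-σ) w a e3 u → π / 3 ≤ angle u (-a) + ε1) :
    π / 2 ≤ (π - angle a b) + ε1 + ε2 := by
  by_contra hlt
  push Not at hlt
  have hσ0 := sig_ne hσ
  have d3 := d3'.mirror'
  have hpi := pi_pos
  by_cases hε : π - angle a b < π / 3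
  · have hε' : π - angle b a < π / 3 := by rwa [angle_comm]
    obtain ⟨_, P1, _, _⟩ := right_package C hσ h hε d1 y1
    obtain ⟨_, P3, _, _⟩ := right_package C (sig_neg hσ) h.mirror hε' d3' y3
    rcases h.types C hσ hε with ⟨e', d1', d2, u1, u2⟩ | ⟨e', d1', d2, u1, u2⟩ |
      ⟨e1', e2, d1', d2, d3'', u1, u2, u3⟩
    · obtain rfl := d3.pred_unique hσ0 d2
      have := P3.be
      rw [real_inner_comm, u2] at this; norm_num at this
    · obtain rfl := d1.succ_unique hσ0 d1'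
      have := P1.be
      rw [u1] at this; norm_num at this
    · obtain rfl := d1.succ_unique hσ0 d1'
      obtain rfl := d3.pred_unique hσ0 d3''
      obtain ⟨q1, _, _⟩ := typeB_ineq C hσ h hε d1 d2 d3 u1 u2 u3
      have PR := pack_of_B d1 d2 u1 u2
      have PL := pack_of_B d3' d2.mirror P3.be (by rw [real_inner_comm]; exact u2)
      have a1 := t1 _ PR
      have a3 := t3 _ PL
      refine trig_B hε (angle_nonneg (e2 - e1') (-b)) (angle_nonneg (e1' - e2) (-a))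
        (angle_le_pi _ _) (angle_le_pi _ _) (by linarith [angle_le_pi a b]) (by linarith) ?_
      rw [cos_pi_sub, cos_angle_unit h.dart.np h.dart.nq, cos_angle_unit PR.uu (neg_unit d1.np),
        cos_angle_unit PL.uu (neg_unit d3.nq)]
      simp only [inner_neg_right, inner_sub_left, real_inner_comm b e1', u1, u3]
      linarith
  push Not at hε
  have e1p : 0 < ε2 := by linarith
  have e3p : 0 < ε1 := by linarith
  have hc0 : ⟪a, b⟫ ≤ 0 := by
    rw [← cos_angle_unit h.dart.np h.dart.nq]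
    exact cos_nonpos_of_pi_div_two_le_of_le (by linarith) (by linarith [angle_le_pi a b])
  have hc1 : -(1 / 2) ≤ ⟪a, b⟫ := by
    rw [← cos_angle_unit h.dart.np h.dart.nq, ← cos_pi_div_three, ← cos_pi_sub]
    exact cos_le_cos_of_nonneg_of_le_pi (angle_nonneg _ _) (by linarith) (by linarith)
  have ys : σ * det3 b e1 n + -σ * det3 a e3 n ≤ 0.1414 := by linarith [pi_lt_d4]
  obtain ⟨kb, β, α, γ⟩ := near_vertical C hσ h d1 d3 hc0 hc1 y1 y3 ys k1 k3
  obtain ⟨ka, δ, _, _⟩ := near_vertical C (sig_neg hσ) h.mirror d3' d1.mirror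
    (by rwa [real_inner_comm]) (by rwa [real_inner_comm]) y3 (by simpa using y1)
    (by simp only [neg_neg]; linarith) k3 k1
  have γ' := γ ka
  clear γ
  obtain ⟨M, hM, m1, _⟩ := h.chain C hσ
  have hM4 : M ≤ 4 := by
    have a1 : (M : ℝ) < 5 := by nlinarith
    have a3 : M < 5 := by exact_mod_cast a1
    omega
  have one_le : ∀ {x y : E3} {m : ℕ}, Units x y m → 1 ≤ m := fun hm => by
    rcases hm with ⟨_, rfl⟩ | ⟨_, rfl⟩ <;> omega
  obtain ⟨n1, M1, rfl, u1, c1⟩ := hM.inv hσ0 h.dart.ind.ne.symm d1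
  have hne : e1 ≠ a := fun e => h.dart.not_swap C.nf hσ0 (e ▸ d1)
  obtain ⟨e2, n2, M2, rfl, d2, u2, c2⟩ := c1.inv' hne
  by_cases hne2 : e2 = a
  · subst hne2
    obtain rfl := d3.pred_unique hσ0 d2
    simp at β
  obtain ⟨e3', n3, M3, rfl, d3'', u3, c3⟩ := c2.inv' hne2
  by_cases hne3 : e3' = a
  · subst hne3
    obtain rfl := d3.pred_unique hσ0 d3''
    rcases u2 with ⟨u2, _⟩ | ⟨u2, _⟩ <;> linarith
  obtain ⟨e4, n4, M4, rfl, d4, u4, c4⟩ := c3.inv' hne3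
  have o1 := one_le u1
  have o2 := one_le u2
  have o3 := one_le u3
  have o4 := one_le u4
  obtain rfl : M4 = 0 := by omega
  obtain rfl := c4.zero
  obtain rfl := d3.pred_unique hσ0 d4
  have v2 : ⟪e1, e2⟫ = 1 / 2 := by
    rcases u2 with ⟨u2, _⟩ | ⟨_, u2⟩
    · exact u2
    · omega
  have v3 : ⟪e2, e3'⟫ = 1 / 2 := by
    rcases u3 with ⟨u3, _⟩ | ⟨_, u3⟩
    · exact u3
    · omega
  have hD : 0 < σ * det3 e1 (e1 - b) e3' := by convert δ using 1; simp [det3]; ring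
  have hc := cramer (right_ne_zero_of_mul hD.ne') e2
  set l1 := det3 e2 (e1 - b) e3' / det3 e1 (e1 - b) e3'
  set lh := det3 e1 e2 e3' / det3 e1 (e1 - b) e3'
  set l3 := det3 e1 (e1 - b) e2 / det3 e1 (e1 - b) e3'
  have p3 : 0 ≤ l3 := by
    have := d1.sup' d2.cq
    have e : σ * det3 b e1 e2 = l3 * (σ * det3 e1 (e1 - b) e3') := by
      conv_lhs => rw [hc]
      simp [det3]; ring
    rw [e] at this
    exact nonneg_of_mul_nonneg_left this hD
  have ph : 0 ≤ lh := by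
    have := d2.sup' d3.cp
    have e : σ * det3 e1 e2 e3' = lh * (σ * det3 e1 (e1 - b) e3') := by
      conv_lhs => rw [hc]
      simp [det3]; ring
    rw [e] at this
    exact nonneg_of_mul_nonneg_left this hD
  have p1' : 0 ≤ l1 * (σ * det3 e3' e4 e1) + lh * (σ * det3 e3' e4 (e1 - b)) := by
    have := d3.sup' d2.cq
    have e : σ * det3 e3' e4 e2
        = l1 * (σ * det3 e3' e4 e1) + lh * (σ * det3 e3' e4 (e1 - b)) := by
      conv_lhs => rw [hc]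
      simp [det3]; ring
    rwa [e] at this
  obtain ⟨hh, _⟩ := unit_sub d1.nq d1.np (by rw [real_inner_comm]; exact kb)
  have i1 : ⟪e1, e2⟫ = l1 + lh / 2 + l3 * ⟪e1, e3'⟫ := by
    conv_lhs => rw [hc]
    simp only [inner_add_right, inner_smul_right, inner_sub_right, d1.nq, real_inner_comm b e1, kb]
    ring
  have i2 : ⟪e2, e2⟫ = l1 * ⟪e2, e1⟫ + lh * ⟪e2, e1 - b⟫ + l3 * ⟪e2, e3'⟫ := by
    nth_rewrite 2 [hc]
    simp only [inner_add_right, inner_smul_right]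
  have i3 : ⟪e2, e1 - b⟫ ≤ 1 := by
    have := real_inner_le_norm e2 (e1 - b)
    rwa [norm_of_ip hh, norm_of_ip d2.nq, mul_one] at this
  rw [d2.nq, real_inner_comm e1 e2, v2, v3] at i2
  rw [v2] at i1
  exact fin_real p3 ph β α p1' γ' i1 i2 i3

theorem two_sided (C : Ctx V n c) (hσ : σ * σ = 1) (h : BD V n c σ w a b) {w1 a1 w2 b2 : E3}
    (hw2 : IsNext V w b w2) (h2 : BD V n c σ w2 (-b) b2) (G2 : Good V n (-σ) w2 b2 (-b))
    (hw1 : IsNext V w a w1) (h1 : BD V n c σ w1 a1 (-a)) (G1 : Good V n σ w1 a1 (-a)) :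
    π / 2 ≤ (π - angle a b) + (π - angle a1 (-a)) + (π - angle (-b) b2) := by
  obtain ⟨e1, d1, y1, z1, k1, t1⟩ := side_info C hσ h hw2 h2 G2
  obtain ⟨e3, d3, y3, z3, k3, t3⟩ := side_info C (sig_neg hσ) h.mirror hw1 h1.mirror
    (by simpa using G1)
  rw [angle_comm (-b)]
  exact core C hσ h d1 d3 y1 y3 z1 z3 k1 k3 t1 t3

end Pool.Agent.Lib.MP_2b4858_co
end

-- part Pool.Agent.Lib.MP_2b4858_co.Final
section

set_option autoImplicit false

namespace Pool.Agent.Lib.MP_2b4858_co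

open scoped RealInnerProductSpace
open InnerProductGeometry Real

theorem discharge {ι : Type} (S : Finset ι) (L R : ι → ι) (ε : ι → ℝ) (θ : ℝ) (GoR GoL : ι → Prop)
    (hL : ∀ w ∈ S, L w ∈ S) (hR : ∀ w ∈ S, R w ∈ S) (hLR : ∀ w ∈ S, L (R w) = w)
    (hRL : ∀ w ∈ S, R (L w) = w) (h1 : ∀ w ∈ S, ε w < θ → GoR w ∨ GoL w)
    (h2 : ∀ w ∈ S, GoR w → 2 * θ ≤ ε w + ε (R w)) (h3 : ∀ w ∈ S, GoL w → 2 * θ ≤ ε w + ε (L w))
    (h4 : ∀ w ∈ S, GoR (L w) → GoL (R w) → 3 * θ ≤ ε w + ε (L w) + ε (R w)) :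
    S.card * θ ≤ ∑ w ∈ S, ε w := by
  classical
  let f0 : ι → ℝ := fun w => if ε w < θ then 0 else ε w - θ
  let fR : ι → ℝ := fun w => if ε w < θ ∧ GoR w then ε w - θ else 0
  let fL : ι → ℝ := fun w => if ε w < θ ∧ ¬ GoR w then ε w - θ else 0
  have e0 : ∑ w ∈ S, (ε w - θ) = ∑ w ∈ S, f0 w + ∑ w ∈ S, fR w + ∑ w ∈ S, fL w := by
    rw [← Finset.sum_add_distrib, ← Finset.sum_add_distrib]
    refine Finset.sum_congr rfl fun w _ => ?_
    by_cases a : ε w < θ <;> by_cases b : GoR w <;> simp [f0, fR, fL, a, b]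
  have e1 : ∑ w ∈ S, fR w = ∑ u ∈ S, fR (L u) :=
    Finset.sum_nbij' R L hR hL hLR hRL fun w hw => by rw [hLR w hw]
  have e2 : ∑ w ∈ S, fL w = ∑ u ∈ S, fL (R u) :=
    Finset.sum_nbij' L R hL hR hRL hLR fun w hw => by rw [hRL w hw]
  have key : 0 ≤ ∑ u ∈ S, (f0 u + fR (L u) + fL (R u)) := by
    refine Finset.sum_nonneg fun u hu => ?_
    by_cases a : ε (L u) < θ ∧ GoR (L u) <;> by_cases b : ε (R u) < θ ∧ ¬ GoR (R u)
    · have g := (h1 _ (hR u hu) b.1).resolve_left b.2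
      have k1 := h2 _ (hL u hu) a.2
      rw [hRL u hu] at k1
      have k2 := h4 u hu a.2 g
      have k3 : ¬ ε u < θ := by linarith [a.1]
      simp only [f0, fR, fL, if_pos a, if_pos b, if_neg k3]
      linarith
    · have k1 := h2 _ (hL u hu) a.2
      rw [hRL u hu] at k1
      have k3 : ¬ ε u < θ := by linarith [a.1]
      simp only [f0, fR, fL, if_pos a, if_neg b, if_neg k3]
      linarith
    · have g := (h1 _ (hR u hu) b.1).resolve_left b.2
      have k1 := h3 _ (hR u hu) g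
      rw [hLR u hu] at k1
      have k3 : ¬ ε u < θ := by linarith [b.1]
      simp only [f0, fR, fL, if_neg a, if_pos b, if_neg k3]
      linarith
    · simp only [f0, fR, fL, if_neg a, if_neg b]
      split_ifs with k
      · simp
      · linarith
  rw [Finset.sum_add_distrib, Finset.sum_add_distrib, ← e1, ← e2, ← e0, Finset.sum_sub_distrib,
    Finset.sum_const, nsmul_eq_mul] at key
  linarith

variable {V : Finset E3} {n : E3} {c σ : ℝ} {w a b : E3}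

theorem BD.unique (C : Ctx V n c) (hσ : σ ≠ 0) (h : BD V n c σ w a b) {a' b' : E3}
    (h' : BD V n c σ w a' b') : a' = a ∧ b' = b :=
  h.dart.unique_of_plane C.nf hσ h'.dart (by rw [h.det_eq C, h'.na, mul_zero])
    (by rw [h.det_eq C, h'.nb, mul_zero])

theorem BD.next (C : Ctx V n c) (hσ : σ ≠ 0) (h : BD V n c σ w a b) {v : E3}
    (hv : IsNext V w b v) : ∃ y, BD V n c σ v (-b) y := by
  obtain ⟨y, s, t, d, _, e⟩ := h.dart.next_dart C.nf hσ h.vert hv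
  refine ⟨y, h.dart.next_vert C.nf hσ h.vert hv, ?_, d, by rw [inner_neg_right, h.nb, neg_zero], ?_⟩
  · obtain ⟨τ, _, rfl, _⟩ := hv
    rw [inner_add_right, inner_smul_right, h.nb, h.hw]; simp
  · rw [e, inner_add_right, inner_smul_right, inner_smul_right, h.na, h.nb]; simp

theorem card_le (C : Ctx V n c) (hnc : ¬ Collinear ℝ {x ∈ hull V | ⟪n, x⟫ = c})
    (S : Finset E3) (hS : ∀ w, w ∈ S ↔ Vert V w ∧ ⟪n, w⟫ = c) : S.card ≤ 12 := by
  have h11 : (1 : ℝ) * 1 = 1 := one_mul 1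
  have ex : ∀ w, ∃ a b, w ∈ S → BD V n c 1 w a b := fun w => by
    by_cases hw : w ∈ S
    · obtain ⟨h1, h2⟩ := (hS w).1 hw
      obtain ⟨p, q, d, e1, e2⟩ := exists_dart (σ := 1) one_ne_zero h1 (neg_ne_zero.2 C.n_ne)
        (fun x hx => by rw [inner_neg_left, inner_neg_left, h2]; linarith [C.up x hx])
        (by simpa only [inner_neg_left, neg_inj, h2] using hnc)
      exact ⟨p, q, fun _ => ⟨h1, h2, d, by simpa using e1, by simpa using e2⟩⟩
    · exact ⟨0, 0, fun h => absurd h hw⟩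
  choose a b hab using ex
  have exR : ∀ w, ∃ v, w ∈ S → IsNext V w (b w) v := fun w => by
    by_cases hw : w ∈ S
    · obtain ⟨v, hv⟩ := exists_next (hab w hw).dart.nq (hab w hw).dart.cq
      exact ⟨v, fun _ => hv⟩
    · exact ⟨0, fun h => absurd h hw⟩
  have exL : ∀ w, ∃ v, w ∈ S → IsNext V w (a w) v := fun w => by
    by_cases hw : w ∈ S
    · obtain ⟨v, hv⟩ := exists_next (hab w hw).dart.np (hab w hw).dart.cp
      exact ⟨v, fun _ => hv⟩
    · exact ⟨0, fun h => absurd h hw⟩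
  choose R hR using exR
  choose L hL using exL
  have fR : ∀ w ∈ S, R w ∈ S ∧ a (R w) = -b w := fun w hw => by
    obtain ⟨y, hy⟩ := (hab w hw).next C one_ne_zero (hR w hw)
    have m : R w ∈ S := (hS _).2 ⟨hy.vert, hy.hw⟩
    exact ⟨m, (hy.unique C one_ne_zero (hab _ m)).1⟩
  have fL : ∀ w ∈ S, L w ∈ S ∧ b (L w) = -a w := fun w hw => by
    obtain ⟨y, hy⟩ := (hab w hw).mirror.next C (neg_ne_zero.2 one_ne_zero) (hL w hw)
    have m : L w ∈ S := (hS _).2 ⟨hy.vert, hy.hw⟩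
    exact ⟨m, (hy.unique C (neg_ne_zero.2 one_ne_zero) (hab _ m).mirror).1⟩
  have hLR : ∀ w ∈ S, L (R w) = w := fun w hw => by
    have h1 := hL _ (fR w hw).1
    rw [(fR w hw).2] at h1
    exact h1.unique ((hab w hw).dart.next_back (hab w hw).vert (hR w hw))
  have hRL : ∀ w ∈ S, R (L w) = w := fun w hw => by
    have h1 := hR _ (fL w hw).1
    rw [(fL w hw).2] at h1
    exact h1.unique ((hab w hw).dart.mirror.next_back (hab w hw).vert (hL w hw))
  have BR : ∀ w ∈ S, BD V n c 1 (R w) (-b w) (b (R w)) := fun w hw =>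
    (fR w hw).2 ▸ hab _ (fR w hw).1
  have BL : ∀ w ∈ S, BD V n c 1 (L w) (a (L w)) (-a w) := fun w hw =>
    (fL w hw).2 ▸ hab _ (fL w hw).1
  have dis := discharge S L R (fun w => π - angle (a w) (b w)) (π / 6)
    (fun w => Good V n 1 w (a w) (b w)) (fun w => Good V n (-1) w (b w) (a w))
    (fun w hw => (fL w hw).1) (fun w hw => (fR w hw).1) hLR hRL
    (fun w hw h => tiny_good C h11 (hab w hw) h)
    (fun w hw G => by
      have := one_sided C h11 (hab w hw) G (hR w hw) (BR w hw)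
      rw [(fR w hw).2]; linarith)
    (fun w hw G => by
      have := one_sided C (sig_neg h11) (hab w hw).mirror G (hL w hw) (BL w hw).mirror
      rw [angle_comm (b w), angle_comm (-a w)] at this
      rw [(fL w hw).2]; linarith)
    (fun w hw G1 G2 => by
      rw [(fL w hw).2] at G1
      rw [(fR w hw).2] at G2
      have := two_sided C h11 (hab w hw) (hR w hw) (BR w hw) G2 (hL w hw) (BL w hw) G1
      rw [(fL w hw).2, (fR w hw).2]; linarith)
  have tot := sum_ext_le S C.n_ne (fun w => w) a b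
    (fun w hw => ⟨(hab w hw).na, unit_ne_zero (hab w hw).dart.np⟩)
    (fun w hw => ⟨(hab w hw).nb, unit_ne_zero (hab w hw).dart.nq⟩)
    (fun w hw v hv hne => ⟨hne.symm, (hab w hw).dart.cone v (hab v hv).vert.mem (by
      rw [(hab w hw).det_eq C, inner_sub_right, (hab w hw).hw, (hab v hv).hw]; simp)⟩)
  have h12 : (S.card : ℝ) ≤ 12 := by
    have := pi_pos
    nlinarith
  exact_mod_cast h12

theorem main (P : Set E3) (hP : CanBeDomed P) : (P.extremePoints ℝ).encard ≤ 12 := by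
  classical
  obtain ⟨Q, ⟨⟨V, rfl⟩, hint⟩, ⟨n0, c0, hn0, hsup, hPe, hnc⟩, hF⟩ := hP
  have hpos : 0 < ‖n0‖ := norm_pos_iff.2 hn0
  set n : E3 := (-‖n0‖⁻¹) • n0 with hn
  set c : ℝ := -‖n0‖⁻¹ * c0 with hc
  have ip : ∀ x, ⟪n, x⟫ = -‖n0‖⁻¹ * ⟪n0, x⟫ := fun x => by rw [hn, real_inner_smul_left]
  have hi : 0 < ‖n0‖⁻¹ := inv_pos.2 hpos
  have eqc : ∀ x, ⟪n, x⟫ = c ↔ ⟪n0, x⟫ = c0 := fun x => by
    rw [ip, hc, mul_right_inj' (neg_ne_zero.2 hi.ne')]
  have hP' : P = {x ∈ hull V | ⟪n, x⟫ = c} := by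
    rw [hPe]; ext x; simp only [Set.mem_ofPred_eq, eqc]
  have up : ∀ x ∈ hull V, c ≤ ⟪n, x⟫ := fun x hx => by
    rw [ip, hc]; nlinarith [hsup x hx]
  have C : Ctx V n c := by
    refine ⟨nonFlat_of_interior hint, ?_, up, fun σ w p q hσ hw d hb => ?_⟩
    · rw [ip, hn, real_inner_smul_right, real_inner_self_eq_norm_sq]
      field_simp
    · refine d.ip_of_polyiamond hw (hF _ (d.isFace hσ hw.mem) fun he => hb ?_)
      rw [hP'] at he
      have m0 : w ∈ face V w p q := ⟨hw.mem, by simp [det3]⟩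
      obtain ⟨s, hs, m1⟩ := d.mem_face_p
      obtain ⟨t, ht, m2⟩ := d.mem_face_q
      rw [he] at m0 m1 m2
      have k0 := m0.2
      have k1 := m1.2
      have k2 := m2.2
      rw [inner_add_right, inner_smul_right, k0] at k1 k2
      exact ⟨k0, (mul_eq_zero.1 (by linarith)).resolve_left hs.ne',
        (mul_eq_zero.1 (by linarith)).resolve_left ht.ne'⟩
  have ext : IsExtreme ℝ (hull V) P := by
    rw [hP']
    refine ⟨fun x hx => hx.1, fun x hx y hy z hz hm => ⟨hx, ?_⟩⟩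
    obtain ⟨s, t, hs, ht, hst, rfl⟩ := hm
    have k := hz.2
    rw [inner_add_right, inner_smul_right, inner_smul_right] at k
    have u1 := up x hx
    have u2 := up y hy
    have : s * (⟪n, x⟫ - c) + t * (⟪n, y⟫ - c) = 0 := by linear_combination k - c * hst
    have u3 := mul_nonneg ht.le (sub_nonneg.2 u2)
    have u4 := mul_nonneg hs.le (sub_nonneg.2 u1)
    have : s * (⟪n, x⟫ - c) = 0 := by linarith
    linarith [(mul_eq_zero.1 this).resolve_left hs.ne']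
  let S := V.filter fun w => Vert V w ∧ ⟪n, w⟫ = c
  have hS : ∀ w, w ∈ S ↔ Vert V w ∧ ⟪n, w⟫ = c := fun w => by
    simp only [S, Finset.mem_filter]
    exact ⟨fun h => h.2, fun h => ⟨h.1.memV, h⟩⟩
  have h12 := card_le C (hP' ▸ hnc) S hS
  have sub : P.extremePoints ℝ ⊆ (S : Set E3) := fun w hw => by
    have h1 := hw.1
    rw [hP'] at h1
    exact (hS w).2 ⟨ext.extremePoints_subset_extremePoints hw, h1.2⟩
  calc (P.extremePoints ℝ).encard ≤ (S : Set E3).encard := Set.encard_le_encard sub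
    _ = S.card := Set.encard_coe_eq_coe_finsetCard S
    _ ≤ 12 := by exact_mod_cast h12

end Pool.Agent.Lib.MP_2b4858_co
end
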